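import Pool.Agent.TH826.UM.Mat
import Pool.Agent.TH826.MK.Exact
set_option autoImplicit false

/-!
Multilinear expansion of the regulator integrals of periodic functions; a second criterion of
diagonal dominance.
-/

namespace Pool.Agent.TH826.UM

open MeasureTheory Set

open Pool.Agent.TH826.MK (Torus Good Per pairing)

open Pool.Agent.TH826.UB (dd)

variable {d : ℕ}

/-- the ring of the periodic functions of class `C²` -/
noncomputable def PR (d : ℕ) : Subring ((Fin d → ℝ) → ℂ) where
  carrier := {f | ContDiff ℝ 2 f ∧ Per f}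
  mul_mem' {f g} hf hg := ⟨hf.1.mul hg.1, fun θ i => by
    rw [Pi.mul_apply, Pi.mul_apply, hf.2 θ i, hg.2 θ i]⟩
  one_mem' := ⟨contDiff_const, fun _ _ => rfl⟩
  add_mem' {f g} hf hg := ⟨hf.1.add hg.1, fun θ i => by
    rw [Pi.add_apply, Pi.add_apply, hf.2 θ i, hg.2 θ i]⟩
  zero_mem' := ⟨contDiff_const, fun _ _ => rfl⟩
  neg_mem' {f} hf := ⟨hf.1.neg, fun θ i => by rw [Pi.neg_apply, Pi.neg_apply, hf.2 θ i]⟩

/-- the evaluations -/
noncomputable def evT (d : ℕ) : Torus (PR d) d where
  e θ := (Pi.evalRingHom (fun _ => ℂ) θ).comp (PR d).subtype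
  smooth h := h.2.1
  periodic θ i := by
    ext h
    exact h.2.2 θ i

/-- nonvanishing functions as units -/
noncomputable def uf (f : (Fin d → ℝ) → ℂ) (gf : Good f) (pf : Per f) : (PR d)ˣ where
  val := ⟨f, gf.smooth, pf⟩
  inv := ⟨fun θ => (f θ)⁻¹, gf.smooth.inv gf.ne_zero, fun θ i => by
    simp only
    rw [pf θ i]⟩
  val_inv := by
    ext θ
    exact mul_inv_cancel₀ (gf.ne_zero θ)
  inv_val := by
    ext θ
    exact inv_mul_cancel₀ (gf.ne_zero θ)

theorem fn_uf (f : (Fin d → ℝ) → ℂ) (gf : Good f) (pf : Per f) :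
    (evT d).fn (uf f gf pf : PR d) = f := rfl

theorem fn_uf_div (f g : (Fin d → ℝ) → ℂ) (gf : Good f) (pf : Per f) (gg : Good g)
    (pg : Per g) : (evT d).fn ((uf f gf pf / uf g gg pg : (PR d)ˣ) : PR d) =
      fun θ => f θ / g θ := by
  funext θ
  have h3 := gg.ne_zero θ
  rw [eq_div_iff h3]
  have h1 : (evT d).e θ ((uf f gf pf / uf g gg pg : (PR d)ˣ) : PR d) *
      (evT d).e θ (uf g gg pg : PR d) = (evT d).e θ (uf f gf pf : PR d) := by
    rw [← map_mul, ← Units.val_mul, div_mul_cancel]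
  exact h1

section expand

variable {A : Type*} [CommRing A]

/-- multilinear expansion in all entries but the first -/
theorem pair_expand0 (Γ : Torus A d) {r : Fin d → ℕ} (u0 : Aˣ)
    (u : ∀ k, Fin (r k + 1) → Aˣ) (i : ∀ k, Fin (r k)) :
    Γ.pair (Fin.cons u0 fun k => u k (i k).castSucc / u k (i k).succ) =
      ∑ p : (∀ k, Fin (r k + 1)), (∏ k, dd (i k) (p k)) *
        Γ.pair (Fin.cons u0 fun k => u k (p k)) := by
  have h0 : ∀ v : Fin d → Aˣ, Γ.pair (Fin.cons u0 v) =
      (mlin Γ).curryLeft (Additive.ofMul u0) fun k => Additive.ofMul (v k) := by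
    intro v
    rw [MultilinearMap.curryLeft_apply, mlin_apply]
    congr 1
  have h1 : ∀ k, Additive.ofMul (u k (i k).castSucc / u k (i k).succ) =
      ∑ p, ddZ (i k) p • Additive.ofMul (u k p) := by
    intro k
    simp [ddZ, sub_smul, Finset.sum_sub_distrib]
  rw [h0]
  simp only [h1]
  rw [MultilinearMap.map_sum]
  refine Finset.sum_congr rfl fun p _ => ?_
  rw [MultilinearMap.map_smul_univ, h0]
  simp only [zsmul_eq_mul, Int.cast_prod, cast_ddZ]

/-- multilinear expansion for periodic functions -/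
theorem pairing_expand {r : Fin d → ℕ} {f : (Fin d → ℝ) → ℂ} (gf : Good f) (pf : Per f)
    {F : ∀ k, Fin (r k + 1) → (Fin d → ℝ) → ℂ} (gF : ∀ k i, Good (F k i))
    (pF : ∀ k i, Per (F k i)) (i : ∀ k, Fin (r k)) :
    pairing (Fin.cons f fun k θ => F k (i k).castSucc θ / F k (i k).succ θ) =
      ∑ p : (∀ k, Fin (r k + 1)), (∏ k, dd (i k) (p k)) *
        pairing (Fin.cons f fun k => F k (p k)) := by
  have h := pair_expand0 (evT d) (uf f gf pf) (fun k i => uf (F k i) (gF k i) (pF k i)) i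
  have h1 : (evT d).pair (Fin.cons (uf f gf pf) fun k => uf (F k (i k).castSucc) (gF k _)
      (pF k _) / uf (F k (i k).succ) (gF k _) (pF k _)) =
      pairing (Fin.cons f fun k θ => F k (i k).castSucc θ / F k (i k).succ θ) := by
    unfold Torus.pair
    congr 1
    funext l
    refine Fin.cases ?_ (fun l => ?_) l
    · rfl
    · exact fn_uf_div _ _ _ _ _ _
  have h2 : ∀ p : (∀ k, Fin (r k + 1)), (evT d).pair (Fin.cons (uf f gf pf) fun k =>
      uf (F k (p k)) (gF k _) (pF k _)) = pairing (Fin.cons f fun k => F k (p k)) := by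
    intro p
    unfold Torus.pair
    congr 1
    funext l
    refine Fin.cases ?_ (fun l => ?_) l
    · rfl
    · rfl
  rw [← h1, h]
  simp only [h2]

end expand

/-- Diagonal dominance: approximation by a matrix with constant positive row sums and with
off-diagonal entries which are not positive. -/
theorem det_ne_zero_of_approx {ι : Type*} [Fintype ι] [DecidableEq ι] (R S : ι → ι → ℝ)
    {κ E : ℝ} (hrow : ∀ p, ∑ q, S p q = κ) (hneg : ∀ p q, p ≠ q → S p q ≤ 0)
    (hE : ∀ p q, |R p q - S p q| ≤ E) (h : (Fintype.card ι : ℝ) * E < κ) :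
    (Matrix.of R).det ≠ 0 := by
  refine det_ne_zero_of_sum_row_lt_diag fun p => ?_
  simp only [Matrix.of_apply, Real.norm_eq_abs]
  have h1 : ∀ q ∈ Finset.univ.erase p, |R p q| ≤ -S p q + E := by
    intro q hq
    have h2 := hneg p q (Finset.ne_of_mem_erase hq).symm
    have h3 := abs_le.1 (hE p q)
    rw [abs_le]
    constructor <;> linarith
  have hsum' : ∑ q ∈ Finset.univ.erase p, S p q = κ - S p p := by
    rw [← hrow p, ← Finset.add_sum_erase _ _ (Finset.mem_univ p)]
    ring
  have hcard : ∑ _q ∈ Finset.univ.erase p, E = (Fintype.card ι : ℝ) * E - E := by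
    rw [Finset.sum_const, Finset.card_erase_of_mem (Finset.mem_univ p), Finset.card_univ,
      nsmul_eq_mul, Nat.cast_sub (Fintype.card_pos_iff.2 ⟨p⟩)]
    push_cast
    ring
  have h4 := (abs_le.1 (hE p p)).1
  calc ∑ q ∈ Finset.univ.erase p, |R p q| ≤ ∑ q ∈ Finset.univ.erase p, (-S p q + E) :=
        Finset.sum_le_sum h1
    _ = -(κ - S p p) + ((Fintype.card ι : ℝ) * E - E) := by
        rw [Finset.sum_add_distrib, Finset.sum_neg_distrib, hsum', hcard]
    _ < R p p := by linarith
    _ ≤ |R p p| := le_abs_self _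

end Pool.Agent.TH826.UM
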