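import Pool.Agent.TH826.UM.Scale
import Pool.Agent.TH826.UM.Expand
set_option autoImplicit false

/-!
Tori on the double covers `z + 1/z = λ ∏_k ∏_i (x_k - a_{k,i})` and the regulator matrix, with
explicit constants.
-/

namespace Pool.Agent.TH826.UM

open MeasureTheory Set

open Pool.Agent.TH826.MK

section matrix

variable {d : ℕ} {s : Fin d → ℕ} {β : ∀ k : Fin d, Fin (s k + 1) → ℂ} {μ : ℂ}

theorem succ_mul_quarter_pow_le {m : ℕ} (hm : 1 ≤ m) : ((m : ℝ) + 1) * (1 / 4) ^ m ≤ 1 / 2 := by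
  have h1 := succ_mul_half_pow_le m
  have h2 : (1 / 2 : ℝ) ^ m ≤ 1 / 2 := by
    calc (1 / 2 : ℝ) ^ m ≤ (1 / 2) ^ 1 := pow_le_pow_of_le_one (by norm_num) (by norm_num) hm
      _ = 1 / 2 := pow_one _
  have h3 : (1 / 4 : ℝ) ^ m = (1 / 2) ^ m * (1 / 2) ^ m := by
    rw [← mul_pow]
    norm_num
  rw [h3, ← mul_assoc]
  calc ((m : ℝ) + 1) * (1 / 2) ^ m * (1 / 2) ^ m ≤ 1 * (1 / 2) :=
        mul_le_mul h1 h2 (by positivity) zero_le_one
    _ = 1 / 2 := one_mul _

/-- the values of `z + 1/z` -/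
theorem norm_mul_FF_ge (hβ : ∀ k i j, i ≠ j → 3 ≤ ‖β k i - β k j‖) (q : ∀ k, Fin (s k + 1))
    (θ : Fin d → ℝ) : ‖μ‖ * ∏ k, (2 : ℝ) ^ s k ≤ ‖μ * FF β q θ‖ := by
  rw [norm_mul]
  exact mul_le_mul_of_nonneg_left (norm_FF_ge hβ q θ) (norm_nonneg _)

theorem four_le (hd : 0 < d) (hs : ∀ k, 1 ≤ s k) (hμ : 2 ≤ ‖μ‖) :
    4 ≤ ‖μ‖ * ∏ k, (2 : ℝ) ^ s k := by
  classical
  have h1 : (2 : ℝ) ≤ ∏ k, (2 : ℝ) ^ s k := by
    rw [← Finset.mul_prod_erase _ _ (Finset.mem_univ (⟨0, hd⟩ : Fin d))]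
    have h2 : (2 : ℝ) ≤ 2 ^ s ⟨0, hd⟩ := by
      calc (2 : ℝ) = 2 ^ 1 := (pow_one _).symm
        _ ≤ 2 ^ s ⟨0, hd⟩ := pow_le_pow_right₀ (by norm_num) (hs _)
    have h3 : (1 : ℝ) ≤ ∏ k ∈ Finset.univ.erase (⟨0, hd⟩ : Fin d), (2 : ℝ) ^ s k :=
      Finset.one_le_prod fun k _ => one_le_pow₀ (by norm_num)
    calc (2 : ℝ) = 2 * 1 := (mul_one _).symm
      _ ≤ _ := mul_le_mul h2 h3 zero_le_one (by positivity)
  nlinarith [norm_nonneg μ]

/-- the regulators of `{z, x_1 - β_{1,p_1}, ..., x_d - β_{d,p_d}}` -/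
noncomputable def RZ (β : ∀ k : Fin d, Fin (s k + 1) → ℂ) (μ : ℂ)
    (p q : ∀ k, Fin (s k + 1)) : ℝ :=
  pairing (Fin.cons (fun θ => zeta (μ * FF β q θ)) (vf fun k => ff β q k (p k)))

theorem good_mul_FF (hβ : ∀ k i j, i ≠ j → 3 ≤ ‖β k i - β k j‖) (hμ : μ ≠ 0)
    (q : ∀ k, Fin (s k + 1)) : Good fun θ => μ * FF β q θ :=
  (good_const hμ).mul (good_FF hβ q)

theorem per_mul_FF (hβ : ∀ k i j, i ≠ j → 3 ≤ ‖β k i - β k j‖)
    (q : ∀ k, Fin (s k + 1)) : Per fun θ => μ * FF β q θ := by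
  intro θ j
  unfold FF
  simp only
  congr 1
  refine Finset.prod_congr rfl fun k _ => Finset.prod_congr rfl fun i _ => ?_
  exact (one_ff hβ q k i).periodic k θ j

theorem good_hs (hd : 0 < d) (hs1 : ∀ k, 1 ≤ s k)
    (hβ : ∀ k i j, i ≠ j → 3 ≤ ‖β k i - β k j‖) (hμ : 2 ≤ ‖μ‖) (q : ∀ k, Fin (s k + 1)) :
    Good fun θ => hs (μ * FF β q θ) := by
  have hμ0 : μ ≠ 0 := by
    rw [← norm_pos_iff]
    linarith
  have h4 : ∀ θ, 4 ≤ ‖μ * FF β q θ‖ := fun θ =>
    (four_le hd hs1 hμ).trans (norm_mul_FF_ge hβ q θ)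
  refine ⟨?_, fun θ => ?_⟩
  · rw [contDiff_iff_contDiffAt]
    intro θ
    exact ((contDiffAt_hs (by linarith [h4 θ])).restrict_scalars ℝ).comp θ
      (good_mul_FF hβ hμ0 q).smooth.contDiffAt
  · unfold hs
    refine div_ne_zero ?_ two_ne_zero
    intro h
    have := norm_one_add_sq_ge (h4 θ)
    rw [h, norm_zero] at this
    linarith

theorem nonsing_DC (hd : 0 < d) (hs1 : ∀ k, 1 ≤ s k)
    (hβ : ∀ k i j, i ≠ j → 3 ≤ ‖β k i - β k j‖) (hμ : 2 ≤ ‖μ‖) :
    (Matrix.of (RZ β μ)).det ≠ 0 := by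
  classical
  have hμ0 : μ ≠ 0 := by
    rw [← norm_pos_iff]
    linarith
  set P : ℝ := ‖μ‖ * ∏ k, (2 : ℝ) ^ s k with hP
  have hP4 : 4 ≤ P := four_le hd hs1 hμ
  have hge : ∀ q θ, P ≤ ‖μ * FF β q θ‖ := fun q θ => norm_mul_FF_ge hβ q θ
  have hlog2 : (0.6931471803 : ℝ) < Real.log 2 := Real.log_two_gt_d9
  have hlogμ : Real.log 2 ≤ Real.log ‖μ‖ := Real.log_le_log (by norm_num) hμ
  refine det_ne_zero_of_approx _
    (fun p q => -pairing (Fin.cons (ww μ β q) (vf fun k => ff β q k (p k))))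
    (κ := (2 * Real.pi) ^ d * Real.log ‖μ‖) (E := 9 / 2 / P ^ 2 * (2 * Real.pi) ^ d)
    (fun p => sum_pairing_ww hβ hμ0 p) (fun p q hpq => pairing_ww_nonpos hβ hμ0 hpq)
    (fun p q => ?_) ?_
  · have hV : ∀ k, One (ff β q k (p k)) (if p k = q k then 1 else 0) :=
      fun k => one_ff hβ q k (p k)
    have gV : ∀ k, Good (vf (fun k => ff β q k (p k)) k) := fun k => (hV k).good k
    have gM := good_mul_FF hβ hμ0 q
    have gw : Good (ww μ β q) := MH.good_w (good_FF hβ q) hμ0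
    have gh := good_hs hd hs1 hβ hμ q
    have h1 := pairing_cons_mul gw gM gV
    have e1 : (fun θ => ww μ β q θ * (μ * FF β q θ)) = fun _ => 1 := by
      funext θ
      exact inv_mul_cancel₀ (gM.ne_zero θ)
    rw [e1, pairing_one hV] at h1
    have h2 : RZ β μ p q = pairing (Fin.cons (fun θ => μ * FF β q θ)
        (vf fun k => ff β q k (p k))) + pairing (Fin.cons (fun θ => hs (μ * FF β q θ))
        (vf fun k => ff β q k (p k))) := pairing_cons_mul gM gh gV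
    have h3 : RZ β μ p q - -pairing (Fin.cons (ww μ β q) (vf fun k => ff β q k (p k))) =
        pairing (Fin.cons (fun θ => hs (μ * FF β q θ)) (vf fun k => ff β q k (p k))) := by
      rw [h2]
      linarith
    rw [h3]
    have hb : ∀ θ, ‖hs (μ * FF β q θ) - 1‖ ≤ 3 / P ^ 2 := by
      intro θ
      refine (norm_hs_sub_one (hP4.trans (hge q θ))).trans ?_
      exact div_le_div_of_nonneg_left (by norm_num) (by positivity)
        (pow_le_pow_left₀ (by linarith) (hge q θ) 2)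
    have hb2 : 3 / P ^ 2 ≤ 3 / 16 := by
      refine div_le_div_of_nonneg_left (by norm_num) (by norm_num) ?_
      nlinarith
    have e2 : ∀ θ, hs (μ * FF β q θ) = 1 + (hs (μ * FF β q θ) - 1) := fun θ => by ring
    refine abs_pairing_log_le hd gh.smooth (fun θ i => ?_) (fun θ => ?_) hV (fun θ => ?_)
      fun k t => norm_ld_ff hβ q k (p k) t
    · have := per_mul_FF (μ := μ) hβ q θ i
      simp only at this ⊢
      rw [this]
    · rw [e2]
      exact Complex.mem_slitPlane_of_norm_lt_one (lt_of_le_of_lt ((hb θ).trans hb2) (by norm_num))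
    · rw [e2]
      have h5 := Complex.norm_log_one_add_half_le_self (z := hs (μ * FF β q θ) - 1)
        ((hb θ).trans (by linarith))
      calc _ ≤ 3 / 2 * ‖hs (μ * FF β q θ) - 1‖ := h5
        _ ≤ 3 / 2 * (3 / P ^ 2) := mul_le_mul_of_nonneg_left (hb θ) (by norm_num)
        _ = 9 / 2 / P ^ 2 := by ring
  · rw [Fintype.card_pi]
    simp only [Fintype.card_fin]
    push_cast
    have h1 : (∏ k, ((s k : ℝ) + 1)) * ∏ k, (1 / 4 : ℝ) ^ s k ≤ 1 / 2 := by
      rw [← Finset.prod_mul_distrib,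
        ← Finset.mul_prod_erase _ _ (Finset.mem_univ (⟨0, hd⟩ : Fin d))]
      have h2 : ∏ k ∈ Finset.univ.erase (⟨0, hd⟩ : Fin d), (((s k : ℝ) + 1) * (1 / 4) ^ s k) ≤ 1 :=
        Finset.prod_le_one (fun k _ => by positivity) fun k _ =>
          (succ_mul_quarter_pow_le (hs1 k)).trans (by norm_num)
      calc _ ≤ (1 / 2 : ℝ) * 1 := mul_le_mul (succ_mul_quarter_pow_le (hs1 _)) h2
            (Finset.prod_nonneg fun k _ => by positivity) (by norm_num)
        _ = 1 / 2 := mul_one _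
    have h2 : (P ^ 2)⁻¹ = (‖μ‖ ^ 2)⁻¹ * ∏ k, (1 / 4 : ℝ) ^ s k := by
      rw [hP, mul_pow, mul_inv, ← Finset.prod_pow, ← Finset.prod_inv_distrib]
      congr 1
      refine Finset.prod_congr rfl fun k _ => ?_
      rw [← pow_mul, mul_comm (s k) 2, pow_mul, ← inv_pow]
      norm_num
    have h3 : (‖μ‖ ^ 2)⁻¹ ≤ 1 / 4 := by
      rw [one_div]
      exact inv_anti₀ (by norm_num) (by nlinarith)
    have h4 : (∏ k, ((s k : ℝ) + 1)) * (9 / 2 / P ^ 2 * (2 * Real.pi) ^ d) =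
        (2 * Real.pi) ^ d * (9 / 2 * ((‖μ‖ ^ 2)⁻¹ *
          ((∏ k, ((s k : ℝ) + 1)) * ∏ k, (1 / 4 : ℝ) ^ s k))) := by
      rw [div_eq_mul_inv (9 / 2 : ℝ) (P ^ 2), h2]
      ring
    rw [h4]
    have h5 : (‖μ‖ ^ 2)⁻¹ * ((∏ k, ((s k : ℝ) + 1)) * ∏ k, (1 / 4 : ℝ) ^ s k) ≤
        1 / 4 * (1 / 2) :=
      mul_le_mul h3 h1 (mul_nonneg (Finset.prod_nonneg fun k _ => by positivity)
        (Finset.prod_nonneg fun k _ => by positivity)) (by norm_num)
    have hpi := Real.pi_pos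
    refine mul_lt_mul_of_pos_left ?_ (by positivity)
    linarith

end matrix

section tori

variable {K : Type*} [Field K] {d : ℕ} {r : Fin d → ℕ} {σ : K →+* ℂ} {D : Data K r}

/-- a torus given by a periodic family of points -/
noncomputable def mkT0 (x : (Fin d → ℝ) → (Fin d → ℂ)) (hc : ContDiff ℝ 2 x)
    (hp : ∀ θ i, x (θ + Pi.single i 1) = x θ) (hx : ∀ θ, GoodPt σ D (x θ)) :
    Torus (ORing D) d where
  e θ := (hx θ).evA
  smooth h := contDiff_evA hc hx h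
  periodic θ i := GoodPt.evA_congr _ _ (hp θ i)

theorem exists_tori_DC (hd : 0 < d) {δ : Fin d → ℝ}
    (hδ : ∀ k, 0 < δ k) (hsep : ∀ k i j, i ≠ j → 3 * δ k ≤ ‖σ (D.a k i) - σ (D.a k j)‖)
    (hlam : 2 ≤ ‖σ D.lam‖ * ∏ k, δ k ^ (r k + 1)) :
    ∃ Γ : (∀ k, Fin (r k)) → Torus (ORing D) d,
      (∀ t θ (x : K), (Γ t).e θ (cO D x) = σ x) ∧
      (Matrix.of fun t i : (∀ k, Fin (r k)) => (Γ t).reg (symb (ent D i))).det ≠ 0 := by
  classical
  by_cases hr : ∃ k, r k = 0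
  · obtain ⟨k, hk⟩ := hr
    have : IsEmpty (∀ k, Fin (r k)) := ⟨fun i => by
      have := (i k).2
      omega⟩
    exact ⟨fun t => isEmptyElim t, fun t => isEmptyElim t, by
      rw [Matrix.det_isEmpty]
      exact one_ne_zero⟩
  push Not at hr
  have hr1 : ∀ k, 1 ≤ r k := fun k => Nat.one_le_iff_ne_zero.2 (hr k)
  set ε : Fin d → ℂ := fun k => (δ k : ℂ) with hε
  have hε0 : ∀ k, ε k ≠ 0 := fun k => Complex.ofReal_ne_zero.2 (hδ k).ne'
  have hεn : ∀ k, ‖ε k‖ = δ k := fun k => by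
    simp only [hε]
    rw [Complex.norm_real, Real.norm_of_nonneg (hδ k).le]
  set β : ∀ k, Fin (r k + 1) → ℂ := sa σ D.a ε with hβd
  set μ : ℂ := sl σ D.lam r ε with hμd
  have hβ : ∀ k i j, i ≠ j → 3 ≤ ‖β k i - β k j‖ := by
    intro k i j hij
    simp only [hβd]
    unfold sa
    rw [← sub_div, norm_div, hεn, le_div_iff₀ (hδ k)]
    exact hsep k i j hij
  have hμ : 2 ≤ ‖μ‖ := by
    simp only [hμd]
    unfold sl
    rw [norm_mul, norm_prod]
    simp only [norm_pow, hεn]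
    exact hlam
  have hns := nonsing_DC hd hr1 hβ hμ
  set X : (∀ k, Fin (r k + 1)) → (Fin d → ℝ) → (Fin d → ℂ) := fun q θ k =>
    ε k * circ 1 (θ k) + σ (D.a k (q k)) with hX
  have hXf : ∀ q θ (k : Fin d) i, X q θ k - σ (D.a k i) = ε k * ff β q k i (θ k) := by
    intro q θ k i
    have h1 := hε0 k
    simp only [hX, hβd]
    unfold ff sa
    field_simp
    ring
  have hXc : ∀ q, ContDiff ℝ 2 (X q) := fun q => contDiff_pi.2 fun k =>
    (contDiff_const.mul ((contDiff_circ 1).comp (contDiff_apply ℝ ℝ k))).add contDiff_const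
  have hXp : ∀ q θ i, X q (θ + Pi.single i 1) = X q θ := by
    intro q θ i
    funext k
    simp only [hX]
    congr 2
    exact congrFun (tpt_add_single (fun _ => 1) θ i) k
  have hPhi : ∀ q θ, PhiC σ D (X q θ) = μ * FF β q θ := by
    intro q θ
    unfold PhiC
    simp only [hXf, Finset.prod_mul_distrib, Finset.prod_const, Finset.card_univ,
      Fintype.card_fin]
    simp only [hμd]
    unfold sl FF
    ring
  have h4 : ∀ q θ, 4 ≤ ‖μ * FF β q θ‖ := fun q θ =>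
    (four_le hd hr1 hμ).trans (norm_mul_FF_ge hβ q θ)
  have hx : ∀ q θ, GoodPt σ D (X q θ) := fun q θ =>
    { ne := fun k i => by
        rw [hXf]
        exact mul_ne_zero (hε0 k) ((one_ff hβ q k i).ne_zero _)
      lt := by
        rw [hPhi]
        linarith [h4 q θ] }
  set Γ' : (∀ k, Fin (r k + 1)) → Torus (ORing D) d := fun q =>
    mkT0 (X q) (hXc q) (hXp q) (hx q) with hΓ'
  have hux : ∀ q (k : Fin d) i θ, (Γ' q).fn (ux D k i : ORing D) θ =
      ε k * ff β q k i (θ k) := by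
    intro q k i θ
    show (hx q θ).evA (toO D (fx D k (D.a k i))) = _
    rw [(hx q θ).evA_toO, (hx q θ).evB_fx, hXf]
  have huz : ∀ q, (Γ' q).fn (uz D : ORing D) = fun θ => zeta (μ * FF β q θ) := by
    intro q
    funext θ
    show (hx q θ).evA (toO D (fz D)) = _
    rw [(hx q θ).evA_toO, (hx q θ).evB_fz, hPhi]
  have hent : ∀ q (i : ∀ k, Fin (r k)), (Γ' q).reg (symb (ent D i)) =
      ∑ p, (∏ k, UB.dd (i k) (p k)) * RZ β μ p q := by
    intro q i
    have gz : Good fun θ => zeta (μ * FF β q θ) := by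
      rw [← huz q]
      exact (Γ' q).good (uz D)
    have pz : Per fun θ => zeta (μ * FF β q θ) := by
      rw [← huz q]
      exact (Γ' q).per _
    have h1 := pairing_expand gz pz (F := fun k i (θ : Fin d → ℝ) => ff β q k i (θ k))
      (fun k i => (one_ff hβ q k i).good k) (fun k i => (one_ff hβ q k i).periodic k) i
    have h2 : (Γ' q).reg (symb (ent D i)) = pairing (Fin.cons (fun θ => zeta (μ * FF β q θ))
        fun k θ => ff β q k (i k).castSucc (θ k) / ff β q k (i k).succ (θ k)) := by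
      rw [Torus.reg_symb]
      unfold Torus.pair
      congr 1
      funext l
      refine Fin.cases ?_ (fun k => ?_) l
      · exact huz q
      · rw [Fin.cons_succ]
        have h3 : ent D i k.succ = ux D k (i k).castSucc / ux D k (i k).succ := rfl
        funext θ
        have h4 := ((Γ' q).good (ux D k (i k).succ)).ne_zero θ
        have h5 : (Γ' q).fn ((ux D k (i k).castSucc / ux D k (i k).succ :
            (ORing D)ˣ) : ORing D) θ =
            (Γ' q).fn (ux D k (i k).castSucc : ORing D) θ /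
            (Γ' q).fn (ux D k (i k).succ : ORing D) θ := by
          rw [eq_div_iff h4]
          unfold Torus.fn
          rw [← map_mul, ← Units.val_mul, div_mul_cancel]
        rw [h3, h5, hux, hux, mul_div_mul_left _ _ (hε0 k)]
    rw [h2]
    exact h1
  obtain ⟨e, he⟩ := exists_columns (Matrix.of (RZ β μ)) hns
  refine ⟨fun t => Γ' (e t), fun t θ x => ?_, ?_⟩
  · show (hx (e t) θ).evA (toO D (fpol D (MvPolynomial.C x))) = _
    rw [(hx (e t) θ).evA_toO, (hx (e t) θ).evB_fpol]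
    simp
  · have hM : (Matrix.of fun t i : (∀ k, Fin (r k)) =>
        (Γ' (e t)).reg (symb (ent D i))) = Matrix.of fun t i : (∀ k, Fin (r k)) =>
        ∑ p, (∏ k, UB.dd (i k) (p k)) * Matrix.of (RZ β μ) p (e t) := by
      ext t i
      rw [Matrix.of_apply, Matrix.of_apply]
      exact hent (e t) i
    rw [hM]
    exact he

end tori

end Pool.Agent.TH826.UM
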