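import Pool.Agent.TH826.MK.Exact
set_option autoImplicit false

/-!
The regulator integral of a function with a logarithm and of functions of one variable.
-/

namespace Pool.Agent.TH826.UM

open MeasureTheory Set

open Pool.Agent.TH826.MK

variable {d : ℕ}

/-- the primitive `t Re log g + i Im log g` of `grow g` -/
noncomputable def psi (g : (Fin d → ℝ) → ℂ) (y : Fin (d + 1) → ℝ) : ℂ :=
  ((y 0 * (Complex.log (g (tl d y))).re : ℝ) : ℂ) +
    Complex.I * ((Complex.log (g (tl d y))).im : ℝ)

/-- the derivative of `log g` -/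
noncomputable def lg' (g : (Fin d → ℝ) → ℂ) (θ : Fin d → ℝ) : (Fin d → ℝ) →L[ℝ] ℂ :=
  (g θ)⁻¹ • fderiv ℝ g θ

/-- the derivative of `psi g` -/
noncomputable def psi' (g : (Fin d → ℝ) → ℂ) (y : Fin (d + 1) → ℝ) :
    (Fin (d + 1) → ℝ) →L[ℝ] ℂ :=
  Complex.ofRealCLM.comp (y 0 • (Complex.reCLM.comp (lg' g (tl d y))).comp (tl d) +
      (Complex.log (g (tl d y))).re • pr0 d) +
    Complex.I • Complex.ofRealCLM.comp ((Complex.imCLM.comp (lg' g (tl d y))).comp (tl d))

variable {g : (Fin d → ℝ) → ℂ}

theorem hasFDerivAt_psi (hg : ContDiff ℝ 2 g) (h0 : ∀ θ, g θ ∈ Complex.slitPlane)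
    (y : Fin (d + 1) → ℝ) : HasFDerivAt (psi g) (psi' g y) y := by
  have hlin : HasFDerivAt (fun y : Fin (d + 1) → ℝ => tl d y) (tl d) y := (tl d).hasFDerivAt
  have h1 : HasFDerivAt g (fderiv ℝ g (tl d y)) (tl d y) :=
    ((hg.differentiable (by norm_num)) _).hasFDerivAt
  have h2 : HasFDerivAt (fun θ => Complex.log (g θ)) (lg' g (tl d y)) (tl d y) :=
    (Complex.hasDerivAt_log (h0 _)).comp_hasFDerivAt _ h1
  have h3 := h2.comp y hlin
  have hre := Complex.reCLM.hasFDerivAt.comp y h3
  have him := Complex.imCLM.hasFDerivAt.comp y h3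
  have hy : HasFDerivAt (fun y : Fin (d + 1) → ℝ => y 0) (pr0 d) y := (pr0 d).hasFDerivAt
  have h4 := Complex.ofRealCLM.hasFDerivAt.comp y (hy.mul hre)
  have h5 := (Complex.ofRealCLM.hasFDerivAt.comp y him).const_mul Complex.I
  exact h4.add h5

theorem psi'_single (i : Fin (d + 1)) (y : Fin (d + 1) → ℝ) :
    psi' g y (Pi.single i 1) = grow g y i := by
  refine Fin.cases ?_ (fun i => ?_) i
  · simp [psi', tl_single_zero, Complex.log_re]
  · rw [grow_succ]
    have h : lg' g (tl d y) (Pi.single i 1) = lw g i (tl d y) := by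
      unfold lg' lw
      rw [div_eq_inv_mul]
      rfl
    simp [psi', tl_single_succ, h]

theorem Per_psi (hg : Per g) (y : Fin (d + 1) → ℝ) (k : Fin d) :
    psi g (y + Pi.single k.succ 1) = psi g y := by
  unfold psi
  rw [tl_add_single, hg, zero_add_single]

/-- The determinant at the faces `t = 0` and `t = 1`. -/
theorem det_face {V : Fin d → ℝ → ℂ} {v : Fin d → ℝ} (hV : ∀ k, One (V k) (v k)) (k0 : Fin d)
    (c : ℂ) (g : (Fin d → ℝ) → ℂ) (y : Fin (d + 1) → ℝ) :
    (Matrix.of (Function.update (Function.update (fun l => grow ((Fin.cons g (vf V) :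
      Fin (d + 1) → (Fin d → ℝ) → ℂ) l) y) 0 (Pi.single 0 1)) k0.succ
        (c • grow (vf V k0) y))).det = c * ∏ k, grow (vf V k) y k.succ := by
  have hoff : ∀ k j : Fin d, j ≠ k → grow (vf V k) y j.succ = 0 := by
    intro k j hjk
    rw [grow_succ]
    unfold vf
    rw [lw_vf_ne (hV k).smooth hjk]
    simp
  set M : Fin (d + 1) → Fin (d + 1) → ℂ := Function.update (Function.update (fun l =>
    grow ((Fin.cons g (vf V) : Fin (d + 1) → (Fin d → ℝ) → ℂ) l) y) 0 (Pi.single 0 1)) k0.succ
        (c • grow (vf V k0) y) with hM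
  have hM0 : M 0 = Pi.single 0 1 := by
    rw [hM, Function.update_of_ne (Fin.succ_ne_zero k0).symm, Function.update_self]
  have hMs : ∀ k : Fin d, M k.succ = (if k = k0 then c else 1) • grow (vf V k) y := by
    intro k
    rw [hM]
    by_cases h : k = k0
    · subst h
      rw [Function.update_self, if_pos rfl]
    · rw [Function.update_of_ne (fun e => h (Fin.succ_injective _ e)),
        Function.update_of_ne (Fin.succ_ne_zero k), if_neg h, one_smul, Fin.cons_succ]
  rw [Matrix.det_of_isLowerTriangular, Fin.prod_univ_succ]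
  · simp only [Matrix.of_apply, hM0, hMs, Pi.single_eq_same, one_mul, Pi.smul_apply, smul_eq_mul]
    rw [Finset.prod_mul_distrib]
    congr 1
    simp
  · intro i j hij
    have hij' : i < j := hij
    revert hij'
    refine Fin.cases ?_ (fun i => ?_) i <;> refine Fin.cases ?_ (fun j => ?_) j
    · intro h; exact absurd h (lt_irrefl _)
    · intro _
      rw [Matrix.of_apply, hM0, Pi.single_eq_of_ne (Fin.succ_ne_zero j)]
    · intro h; exact absurd h (Fin.not_lt_zero _)
    · intro h1
      have hne : j ≠ i := fun e => by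
        rw [e] at h1
        exact absurd h1 (lt_irrefl _)
      rw [Matrix.of_apply, hMs, Pi.smul_apply, hoff i j hne, smul_zero]

/-- The regulator integral of a function with a logarithm. -/
theorem abs_pairing_log_le (hd : 0 < d) (hg : ContDiff ℝ 2 g) (hper : Per g)
    (h0 : ∀ θ, g θ ∈ Complex.slitPlane) {V : Fin d → ℝ → ℂ} {v : Fin d → ℝ}
    (hV : ∀ k, One (V k) (v k)) {A C : ℝ} (hA : ∀ θ, ‖Complex.log (g θ)‖ ≤ A)
    (hVC : ∀ k s, ‖deriv (V k) s / V k s‖ ≤ C) :
    |pairing (Fin.cons g (vf V))| ≤ A * C ^ d := by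
  have gg : Good g := ⟨hg, fun θ => Complex.slitPlane_ne_zero (h0 θ)⟩
  have gV : ∀ k, Good (vf V k) := fun k => (hV k).good k
  have pV : ∀ k, Per (vf V k) := fun k => (hV k).periodic k
  set G : Fin (d + 1) → (Fin d → ℝ) → ℂ := Fin.cons g (vf V) with hG
  have gG : ∀ l, Good (G l) := good_cons gg gV
  have pG : ∀ l, Per (G l) := by
    intro l
    refine Fin.cases ?_ (fun l => ?_) l
    · exact hper
    · exact pV l
  set k0 : Fin d := ⟨0, hd⟩ with hk0
  have hpq : (0 : Fin (d + 1)) ≠ k0.succ := (Fin.succ_ne_zero k0).symm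
  let S : SData d :=
    { J := fun l => grow (G l)
      J' := fun l => grow' (G l)
      hJ := fun l y => hasFDerivAt_grow (gG l).smooth (gG l).ne_zero y
      hJs := fun l y i j => grow'_symm (gG l).smooth y i j
      P := fun y => psi g y • grow (vf V k0) y
      P' := fun y => psi g y • grow' (vf V k0) y + (psi' g y).smulRight (grow (vf V k0) y)
      hP := fun y => (hasFDerivAt_psi hg h0 y).smul
        (hasFDerivAt_grow (gV k0).smooth (gV k0).ne_zero y)
      p := 0
      q := k0.succ
      hpq := hpq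
      hX := fun y i j => by
        have h1 := grow'_symm (gV k0).smooth y i j
        have h2 := psi'_single (g := g) i y
        have h3 := psi'_single (g := g) j y
        have e0 : G 0 = g := rfl
        have e1 : G k0.succ = vf V k0 := rfl
        rw [e0, e1]
        simp only [add_apply, smul_apply, Pi.add_apply, Pi.smul_apply,
          ContinuousLinearMap.smulRight_apply, smul_eq_mul, h1, h2, h3]
        ring }
  have hst := S.stokes
  have hV0 : ∀ y, S.V 0 y = psi g y * ∏ k, grow (vf V k) y k.succ := by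
    intro y
    rw [← det_face hV k0 (psi g y) g y]
    unfold SData.V
    rw [S.rows_eq]
    rfl
  have hVdB : ∀ i y, S.V i y = dB (fun l => grow (G l) y) 0 k0.succ (Pi.single i 1)
      (psi g y • grow (vf V k0) y) := by
    intro i y
    unfold SData.V
    rw [S.rows_eq]
    rfl
  have hside : ∀ k : Fin d, ∀ x : Fin d → ℝ, S.V k.succ (Fin.insertNth k.succ 1 x) =
      S.V k.succ (Fin.insertNth k.succ 0 x) := by
    intro k x
    rw [hVdB, hVdB, insertNth_eq, Per_psi hper, (pV k0).grow]
    have : (fun l => grow (G l) ((Fin.insertNth k.succ 0 x : Fin (d + 1) → ℝ) +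
        Pi.single k.succ 1)) = fun l => grow (G l) (Fin.insertNth k.succ 0 x) :=
      funext fun l => (pG l).grow _ k
    rw [this]
  have htop : ∀ x : Fin d → ℝ, ‖S.V 0 (Fin.insertNth 0 1 x)‖ ≤ A * C ^ d := by
    intro x
    set y : Fin (d + 1) → ℝ := Fin.insertNth 0 1 x with hy
    have hy0 : y 0 = 1 := by simp [hy]
    rw [hV0, norm_mul, norm_prod]
    have e1 : psi g y = Complex.log (g (tl d y)) := by
      unfold psi
      rw [hy0, one_mul, mul_comm Complex.I]
      exact Complex.re_add_im _
    have e2 : ∀ k : Fin d, ‖grow (vf V k) y k.succ‖ ≤ C := by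
      intro k
      rw [grow_succ, hy0, one_mul, mul_comm Complex.I, Complex.re_add_im]
      have := lw_vf_self (hV k).smooth k (tl d y)
      have e : lw (vf V k) k (tl d y) = _ := this
      rw [e]
      exact hVC k _
    rw [e1]
    refine mul_le_mul (hA _) ?_ (Finset.prod_nonneg fun _ _ => norm_nonneg _)
      ((norm_nonneg _).trans (hA (tl d y)))
    calc ∏ k, ‖grow (vf V k) y k.succ‖ ≤ ∏ _k : Fin d, C :=
          Finset.prod_le_prod (fun _ _ => norm_nonneg _) fun k _ => e2 k
      _ = C ^ d := by simp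
  have hbot : ∀ x : Fin d → ℝ, ((-Complex.I) ^ d * S.V 0 (Fin.insertNth 0 0 x)).re = 0 := by
    intro x
    set y : Fin (d + 1) → ℝ := Fin.insertNth 0 0 x with hy
    have hy0 : y 0 = 0 := by simp [hy]
    rw [hV0]
    have e1 : psi g y = Complex.I * ((Complex.log (g (tl d y))).im : ℝ) := by
      unfold psi
      rw [hy0, zero_mul, Complex.ofReal_zero, zero_add]
    have e2 : ∀ k : Fin d, grow (vf V k) y k.succ =
        Complex.I * ((lw (vf V k) k (tl d y)).im : ℝ) := by
      intro k
      rw [grow_succ, hy0, zero_mul, Complex.ofReal_zero, zero_add]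
    simp only [e1, e2]
    rw [Finset.prod_mul_distrib, Finset.prod_const, Finset.card_univ, Fintype.card_fin]
    have e3 : (-Complex.I) ^ d * Complex.I ^ d = 1 := by
      rw [← mul_pow]
      simp
    have e4 : (-Complex.I) ^ d * (Complex.I * ((Complex.log (g (tl d y))).im : ℝ) *
        (Complex.I ^ d * ∏ k, (((lw (vf V k) k (tl d y)).im : ℝ) : ℂ))) =
        (((Complex.log (g (tl d y))).im * ∏ k, (lw (vf V k) k (tl d y)).im : ℝ) : ℂ) *
          Complex.I := by
      push_cast
      linear_combination (Complex.I * ((Complex.log (g (tl d y))).im : ℂ) *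
        ∏ k, (((lw (vf V k) k (tl d y)).im : ℝ) : ℂ)) * e3
    rw [e4, Complex.re_ofReal_mul]
    simp
  have hint : ∫ y in Icc (0 : Fin (d + 1) → ℝ) 1, (detC (d + 1) fun l => S.J l y) =
      (∫ x in Icc (0 : Fin d → ℝ) 1, S.V 0 (Fin.insertNth 0 1 x)) -
      ∫ x in Icc (0 : Fin d → ℝ) 1, S.V 0 (Fin.insertNth 0 0 x) := by
    rw [hst, Fin.sum_univ_succ]
    have h0 : ∑ k : Fin d, ((∫ x in Icc (0 : Fin d → ℝ) 1, S.V k.succ (k.succ.insertNth 1 x)) -
      ∫ x in Icc (0 : Fin d → ℝ) 1, S.V k.succ (k.succ.insertNth 0 x)) = 0 := by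
      refine Finset.sum_eq_zero fun k _ => ?_
      simp only [hside, sub_self]
    rw [h0, add_zero]
  have hcV : ∀ t : ℝ, Continuous fun x : Fin d → ℝ => S.V 0 (Fin.insertNth 0 t x) := by
    intro t
    refine (S.continuous_V 0).comp ?_
    refine continuous_pi fun j => ?_
    refine Fin.cases ?_ (fun j => ?_) j
    · simpa using continuous_const
    · simpa using continuous_apply j
  have hc := S.continuous_det
  have hI : ∀ t : ℝ, IntegrableOn (fun x : Fin d → ℝ => (-Complex.I) ^ d *
      S.V 0 (Fin.insertNth 0 t x)) (Icc 0 1) := fun t =>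
    (continuous_const.mul (hcV t)).continuousOn.integrableOn_compact isCompact_Icc
  have hmain : pairing G = Complex.reCLM (∫ x in Icc (0 : Fin d → ℝ) 1,
      ((-Complex.I) ^ d * S.V 0 (Fin.insertNth 0 1 x))) := by
    unfold pairing integrand
    have e1 : ∀ y : Fin (d + 1) → ℝ, ((-Complex.I) ^ d *
        (Matrix.of fun l => grow (G l) y).det).re =
        Complex.reCLM ((-Complex.I) ^ d * detC (d + 1) fun l => S.J l y) := fun y => rfl
    simp only [e1]
    rw [ContinuousLinearMap.integral_comp_comm, integral_const_mul, hint, mul_sub,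
      ← integral_const_mul, ← integral_const_mul, map_sub]
    · rw [← ContinuousLinearMap.integral_comp_comm _ (hI 0)]
      have e2 : ∀ x : Fin d → ℝ,
          Complex.reCLM ((-Complex.I) ^ d * S.V 0 (Fin.insertNth 0 0 x)) = 0 := hbot
      simp only [e2, integral_zero, sub_zero]
    · exact (continuous_const.mul hc).continuousOn.integrableOn_compact isCompact_Icc
  rw [hmain]
  refine (Complex.abs_re_le_norm _).trans ?_
  have hvol : (volume : Measure (Fin d → ℝ)) (Icc 0 1) = 1 := by
    rw [Real.volume_Icc_pi]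
    simp
  have h4 := norm_setIntegral_le_of_norm_le_const (μ := (volume : Measure (Fin d → ℝ)))
    (s := Icc 0 1) (f := fun x => (-Complex.I) ^ d * S.V 0 (Fin.insertNth 0 1 x))
    (C := A * C ^ d) (by rw [hvol]; exact ENNReal.one_lt_top) (fun x _ => by
      rw [norm_mul, norm_pow, norm_neg, Complex.norm_I, one_pow, one_mul]
      exact htop x)
  rw [Measure.real, hvol] at h4
  simpa using h4

end Pool.Agent.TH826.UM
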