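import Pool.Agent.TH826.UM.Expand
set_option autoImplicit false

/-!
Differences with respect to the first function: linear algebra and multilinear expansion in some of
the entries.
-/

namespace Pool.Agent.TH826.UM

open Matrix

open Pool.Agent.TH826.UB (exists_submatrix)

open Pool.Agent.TH826.MK (Torus Good Per pairing)

/-- the difference of the unit vectors of `i` and of `0` -/
def d0 {m : ℕ} (i : Fin m) (k : Fin (m + 1)) : ℝ :=
  (if k = i.succ then 1 else 0) - if k = 0 then 1 else 0

/-- the integral difference -/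
def d0Z {m : ℕ} (i : Fin m) (k : Fin (m + 1)) : ℤ :=
  (if k = i.succ then 1 else 0) - if k = 0 then 1 else 0

theorem cast_d0Z {m : ℕ} (i : Fin m) (k : Fin (m + 1)) : ((d0Z i k : ℤ) : ℝ) = d0 i k := by
  unfold d0Z d0
  push_cast
  rfl

theorem sum_d0 {m : ℕ} (i j : Fin m) :
    ∑ k : Fin (m + 1), d0 i k * (if k = j.succ then 1 else 0) = if i = j then 1 else 0 := by
  have h1 : ∀ k : Fin (m + 1), d0 i k * (if k = j.succ then (1 : ℝ) else 0) =
      if k = j.succ then d0 i j.succ else 0 := by
    intro k
    by_cases h : k = j.succ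
    · rw [if_pos h, if_pos h, h, mul_one]
    · rw [if_neg h, if_neg h, mul_zero]
  simp only [h1]
  rw [Finset.sum_ite_eq' Finset.univ j.succ fun _ => d0 i j.succ, if_pos (Finset.mem_univ _)]
  unfold d0
  rw [if_neg (Fin.succ_ne_zero j), sub_zero]
  by_cases h : i = j
  · rw [if_pos h, if_pos (by rw [h])]
  · rw [if_neg h, if_neg fun h' => h (Fin.succ_injective _ h').symm]

theorem exists_columns0 {n : ℕ} {r : Fin n → ℕ}
    (R : Matrix (∀ k, Fin (r k + 1)) (∀ k, Fin (r k + 1)) ℝ) (hR : R.det ≠ 0) :
    ∃ e : (∀ k, Fin (r k)) → (∀ k, Fin (r k + 1)),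
      (Matrix.of fun t i : (∀ k, Fin (r k)) =>
        ∑ p, (∏ k, d0 (i k) (p k)) * R p (e t)).det ≠ 0 := by
  classical
  set D : Matrix (∀ k, Fin (r k)) (∀ k, Fin (r k + 1)) ℝ :=
    fun i p => ∏ k, d0 (i k) (p k) with hD
  set T : Matrix (∀ k, Fin (r k + 1)) (∀ k, Fin (r k)) ℝ :=
    fun p i => ∏ k, (if p k = (i k).succ then 1 else 0) with hT
  have hDT : D * T = 1 := by
    ext i j
    rw [Matrix.mul_apply]
    have h1 : ∀ p, D i p * T p j =
        ∏ k, (d0 (i k) (p k) * (if p k = (j k).succ then 1 else 0)) := by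
      intro p
      simp only [hD, hT]
      rw [Finset.prod_mul_distrib]
    simp only [h1]
    rw [sum_prod_pi (fun k x => d0 (i k) x * (if x = (j k).succ then (1 : ℝ) else 0))]
    simp only [sum_d0]
    by_cases hij : i = j
    · subst hij
      simp
    · rw [Matrix.one_apply_ne hij]
      obtain ⟨k, hk⟩ : ∃ k, i k ≠ j k := by
        by_contra h
        push Not at h
        exact hij (funext h)
      exact Finset.prod_eq_zero (Finset.mem_univ k) (if_neg hk)
  have hunit : IsUnit R.det := isUnit_iff_ne_zero.2 hR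
  obtain ⟨e, he⟩ := exists_submatrix (D * R) (R⁻¹ * T) (by
    rw [Matrix.mul_assoc, ← Matrix.mul_assoc R, Matrix.mul_nonsing_inv _ hunit,
      Matrix.one_mul, hDT, Matrix.det_one]
    exact one_ne_zero)
  refine ⟨e, ?_⟩
  rw [← Matrix.det_transpose] at he
  exact he

section expand

variable {A : Type*} [CommRing A] {n q : ℕ}

/-- the regulator integral as a multilinear map in the entries `1, ..., n` -/
noncomputable def mlinA (Γ : Torus A (n + q)) (u0 : Aˣ) (y : Fin q → Aˣ) :
    MultilinearMap ℤ (fun _ : Fin n => Additive Aˣ) ℝ :=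
  have hadd : ∀ (m : Fin n → Additive Aˣ) (l : Fin n) (x x' : Additive Aˣ),
      Γ.pair (Fin.cons u0 (Fin.append
          (fun k => (Function.update m l (x + x') k).toMul) y)) =
        Γ.pair (Fin.cons u0 (Fin.append (fun k => (Function.update m l x k).toMul) y)) +
        Γ.pair (Fin.cons u0 (Fin.append (fun k => (Function.update m l x' k).toMul) y)) := by
    intro m l x x'
    have h := Γ.pair_update_mul (Fin.cons u0 (Fin.append (fun k => (m k).toMul) y))
      (Fin.castAdd q l).succ x.toMul x'.toMul
    have e : ∀ z : Additive Aˣ, (Fin.cons u0 (Fin.append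
        (fun k => (Function.update m l z k).toMul) y) : Fin (n + q + 1) → Aˣ) =
        Function.update (Fin.cons u0 (Fin.append (fun k => (m k).toMul) y))
          (Fin.castAdd q l).succ z.toMul := by
      intro z
      funext k
      refine Fin.cases ?_ (fun k => ?_) k
      · rw [Function.update_of_ne (Fin.succ_ne_zero _).symm]
        rfl
      · refine Fin.addCases (fun k => ?_) (fun k => ?_) k
        · by_cases hk : k = l
          · subst hk
            rw [Function.update_self, Fin.cons_succ, Fin.append_left, Function.update_self]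
          · rw [Function.update_of_ne (fun h => hk (Fin.castAdd_injective _ _
              (Fin.succ_injective _ h))), Fin.cons_succ, Fin.cons_succ, Fin.append_left,
              Fin.append_left, Function.update_of_ne hk]
        · have hne : (Fin.natAdd n k).succ ≠ (Fin.castAdd q l).succ := by
            intro h
            have h2 := congrArg Fin.val (Fin.succ_injective _ h)
            rw [Fin.val_natAdd, Fin.val_castAdd] at h2
            have := l.isLt
            omega
          rw [Function.update_of_ne hne, Fin.cons_succ, Fin.cons_succ, Fin.append_right,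
            Fin.append_right]
    rw [e, e, e, toMul_add]
    exact h
  MultilinearMap.mk' (fun a => Γ.pair (Fin.cons u0 (Fin.append (fun k => (a k).toMul) y)))
    hadd (by
    intro m l c x
    exact (AddMonoidHom.mk' (fun x => Γ.pair (Fin.cons u0 (Fin.append
      (fun k => (Function.update m l x k).toMul) y))) (hadd m l)).map_zsmul c x)

theorem mlinA_apply (Γ : Torus A (n + q)) (u0 : Aˣ) (y : Fin q → Aˣ)
    (a : Fin n → Additive Aˣ) : mlinA Γ u0 y a =
      Γ.pair (Fin.cons u0 (Fin.append (fun k => (a k).toMul) y)) := rfl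

/-- multilinear expansion in the entries `1, ..., n` -/
theorem pair_expandA (Γ : Torus A (n + q)) {r : Fin n → ℕ} (u0 : Aˣ) (y : Fin q → Aˣ)
    (u : ∀ k, Fin (r k + 1) → Aˣ) (i : ∀ k, Fin (r k)) :
    Γ.pair (Fin.cons u0 (Fin.append (fun k => u k (i k).succ / u k 0) y)) =
      ∑ p : (∀ k, Fin (r k + 1)), (∏ k, d0 (i k) (p k)) *
        Γ.pair (Fin.cons u0 (Fin.append (fun k => u k (p k)) y)) := by
  have h0 : ∀ v : Fin n → Aˣ, Γ.pair (Fin.cons u0 (Fin.append v y)) =
      mlinA Γ u0 y fun k => Additive.ofMul (v k) := fun v => rfl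
  have h1 : ∀ k, Additive.ofMul (u k (i k).succ / u k 0) =
      ∑ p, d0Z (i k) p • Additive.ofMul (u k p) := by
    intro k
    simp [d0Z, sub_smul, Finset.sum_sub_distrib]
  rw [h0]
  simp only [h1]
  rw [MultilinearMap.map_sum]
  refine Finset.sum_congr rfl fun p _ => ?_
  rw [MultilinearMap.map_smul_univ, h0]
  simp only [zsmul_eq_mul, Int.cast_prod, cast_d0Z]

/-- multilinear expansion for periodic functions -/
theorem pairing_expandA {r : Fin n → ℕ} {f : (Fin (n + q) → ℝ) → ℂ} (gf : Good f) (pf : Per f)
    {g : Fin q → (Fin (n + q) → ℝ) → ℂ} (gg : ∀ j, Good (g j)) (pg : ∀ j, Per (g j))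
    {F : ∀ k, Fin (r k + 1) → (Fin (n + q) → ℝ) → ℂ} (gF : ∀ k i, Good (F k i))
    (pF : ∀ k i, Per (F k i)) (i : ∀ k, Fin (r k)) :
    pairing (Fin.cons f (Fin.append (fun k θ => F k (i k).succ θ / F k 0 θ) g)) =
      ∑ p : (∀ k, Fin (r k + 1)), (∏ k, d0 (i k) (p k)) *
        pairing (Fin.cons f (Fin.append (fun k => F k (p k)) g)) := by
  have h := pair_expandA (evT (n + q)) (uf f gf pf) (fun j => uf (g j) (gg j) (pg j))
    (fun k i => uf (F k i) (gF k i) (pF k i)) i
  have h1 : (evT (n + q)).pair (Fin.cons (uf f gf pf) (Fin.append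
      (fun k => uf (F k (i k).succ) (gF k _) (pF k _) / uf (F k 0) (gF k _) (pF k _))
      fun j => uf (g j) (gg j) (pg j))) =
      pairing (Fin.cons f (Fin.append (fun k θ => F k (i k).succ θ / F k 0 θ) g)) := by
    unfold Torus.pair
    congr 1
    funext l
    refine Fin.cases ?_ (fun l => ?_) l
    · rfl
    · rw [Fin.cons_succ, Fin.cons_succ]
      refine Fin.addCases (fun l => ?_) (fun l => ?_) l
      · rw [Fin.append_left, Fin.append_left]
        exact fn_uf_div _ _ _ _ _ _
      · rw [Fin.append_right, Fin.append_right]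
        rfl
  have h2 : ∀ p : (∀ k, Fin (r k + 1)), (evT (n + q)).pair (Fin.cons (uf f gf pf)
      (Fin.append (fun k => uf (F k (p k)) (gF k _) (pF k _))
      fun j => uf (g j) (gg j) (pg j))) =
      pairing (Fin.cons f (Fin.append (fun k => F k (p k)) g)) := by
    intro p
    unfold Torus.pair
    congr 1
    funext l
    refine Fin.cases ?_ (fun l => ?_) l
    · rfl
    · rw [Fin.cons_succ, Fin.cons_succ]
      refine Fin.addCases (fun l => ?_) (fun l => ?_) l
      · rw [Fin.append_left, Fin.append_left]
        rfl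
      · rw [Fin.append_right, Fin.append_right]
        rfl
  rw [← h1, h]
  simp only [h2]

end expand

end Pool.Agent.TH826.UM
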