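import Pool.Agent.TH826.UM.DC
import Pool.Agent.TH690.SF.Branch
set_option autoImplicit false

/-!
The regulator matrix of the fibrations `z + y_1 + ... + y_q + 1/(z ∏ y_i ^ (w_i + 1)) = Φ(x)`,
`Φ = λ ∏_k ∏_i (x_k - a_{k,i})`, on tori of dimension `n + q`, with explicit constants.
-/

namespace Pool.Agent.TH826.UM

open MeasureTheory Set

open Pool.Agent.TH826.MK

open Pool.Agent.TH690.SF (se he he_eq good_he_comp slit_e norm_four_mul)

section prods

variable {n q : ℕ}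

theorem prod_erase_castAdd (f : Fin n → ℝ) (k : Fin n) :
    ∏ l ∈ Finset.univ.erase (Fin.castAdd q k), (Fin.append f (fun _ : Fin q => (1 : ℝ)) l) =
      ∏ l ∈ Finset.univ.erase k, f l := by
  classical
  have h1 : ∀ {m : ℕ} (g : Fin m → ℝ) (a : Fin m), ∏ l ∈ Finset.univ.erase a, g l =
      ∏ l, if l = a then 1 else g l := by
    intro m g a
    rw [← Finset.mul_prod_erase Finset.univ _ (Finset.mem_univ a), if_pos rfl, one_mul]
    exact Finset.prod_congr rfl fun l hl => (if_neg (Finset.ne_of_mem_erase hl)).symm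
  rw [h1, h1, Fin.prod_univ_add]
  have h2 : ∀ i : Fin q, (if Fin.natAdd n i = Fin.castAdd q k then (1 : ℝ) else
      Fin.append f (fun _ : Fin q => (1 : ℝ)) (Fin.natAdd n i)) = 1 := by
    intro i
    rw [Fin.append_right, ite_self]
  simp only [h2, Finset.prod_const_one, mul_one]
  refine Finset.prod_congr rfl fun i _ => ?_
  rw [Fin.append_left]
  by_cases h : i = k
  · rw [if_pos h, if_pos (by rw [h])]
  · rw [if_neg h, if_neg (fun h' => h (Fin.castAdd_injective _ _ h'))]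

theorem prod_append_one (f : Fin n → ℝ) :
    ∏ l, (Fin.append f (fun _ : Fin q => (1 : ℝ)) l) = ∏ l, f l := by
  rw [Fin.prod_univ_add]
  simp only [Fin.append_left, Fin.append_right, Finset.prod_const_one, mul_one]

end prods

section matrix

variable {n q : ℕ} {s : Fin n → ℕ} {β : ∀ k : Fin n, Fin (s k + 1) → ℂ} {μ : ℂ}

theorem one_circ : One (circ 1) 1 := by
  have h := one_lin (R := 1) one_pos (b := 0) (by rw [norm_zero]; norm_num)
  have e1 : (fun s => circ 1 s - 0) = circ 1 := by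
    funext s
    rw [sub_zero]
  have e2 : wd 1 0 = 1 := by
    unfold wd
    rw [norm_zero, if_pos one_pos]
  rwa [e1, e2] at h

theorem norm_ld_circ (t : ℝ) : ‖deriv (circ 1) t / circ 1 t‖ ≤ 2 * Real.pi := by
  have h1 := deriv_circ_sub 1 0 t
  have e1 : (fun s => circ 1 s - 0) = circ 1 := by
    funext s
    rw [sub_zero]
  rw [e1] at h1
  rw [h1, mul_div_assoc, div_self (one_circ.ne_zero t), mul_one]
  rw [norm_mul, norm_mul, Complex.norm_I, Complex.norm_real, Complex.norm_ofNat, mul_one,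
    Real.norm_eq_abs, abs_of_pos Real.pi_pos]

/-- the entries in the coordinate directions -/
noncomputable def VV (q : ℕ) (β : ∀ k : Fin n, Fin (s k + 1) → ℂ) (t p : ∀ k, Fin (s k + 1)) :
    Fin (n + q) → ℝ → ℂ :=
  Fin.append (fun k => ff β t k (p k)) fun _ => circ 1

/-- their winding numbers -/
noncomputable def vv (q : ℕ) (t p : ∀ k, Fin (s k + 1)) : Fin (n + q) → ℝ :=
  Fin.append (fun k => if p k = t k then 1 else 0) fun _ => 1

theorem one_VV (hβ : ∀ k i j, i ≠ j → 3 ≤ ‖β k i - β k j‖) (t p : ∀ k, Fin (s k + 1))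
    (l : Fin (n + q)) : One (VV q β t p l) (vv q t p l) := by
  refine Fin.addCases (fun k => ?_) (fun i => ?_) l
  · unfold VV vv
    rw [Fin.append_left, Fin.append_left]
    exact one_ff hβ t k (p k)
  · unfold VV vv
    rw [Fin.append_right, Fin.append_right]
    exact one_circ

theorem norm_ld_VV (hβ : ∀ k i j, i ≠ j → 3 ≤ ‖β k i - β k j‖) (t p : ∀ k, Fin (s k + 1))
    (l : Fin (n + q)) (x : ℝ) :
    ‖deriv (VV q β t p l) x / VV q β t p l x‖ ≤ 2 * Real.pi := by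
  refine Fin.addCases (fun k => ?_) (fun i => ?_) l
  · unfold VV
    rw [Fin.append_left]
    exact norm_ld_ff hβ t k (p k) x
  · unfold VV
    rw [Fin.append_right]
    exact norm_ld_circ x

theorem pairing_ffA (hβ : ∀ k i j, i ≠ j → 3 ≤ ‖β k i - β k j‖) (t p : ∀ k, Fin (s k + 1))
    (k : Fin n) (i : Fin (s k + 1)) :
    pairing (Fin.cons (fun θ : Fin (n + q) → ℝ => ff β t k i (θ (Fin.castAdd q k)))
        (vf (VV q β t p))) =
      (2 * Real.pi) ^ (n + q) * (∏ l ∈ Finset.univ.erase k, if p l = t l then (1 : ℝ) else 0) *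
        (Real.log ‖β k i - β k (p k)‖ *
          ((if p k = t k then 1 else 0) - if i = t k then 1 else 0)) := by
  have h := pairing_lin (G := VV q β t p) (R := 1) one_pos
    (β := β k i - β k (t k)) (b := β k (p k) - β k (t k)) (norm_ne_one hβ t k i)
    (norm_ne_one hβ t k (p k)) (one_VV hβ t p) (Fin.castAdd q k)
  have e : Function.update (VV q β t p) (Fin.castAdd q k)
      (fun s => circ 1 s - (β k (p k) - β k (t k))) = VV q β t p := by
    have e0 : (fun s => circ 1 s - (β k (p k) - β k (t k))) =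
        VV q β t p (Fin.castAdd q k) := by
      unfold VV
      rw [Fin.append_left]
      rfl
    rw [e0, Function.update_eq_self]
  have e2 : β k i - β k (t k) - (β k (p k) - β k (t k)) = β k i - β k (p k) := by ring
  rw [e, wd_ff hβ, wd_ff hβ, e2] at h
  unfold vv at h
  rw [prod_erase_castAdd] at h
  exact h

/-- the values of `Φ` -/
noncomputable def PhT (q : ℕ) (μ : ℂ) (β : ∀ k : Fin n, Fin (s k + 1) → ℂ)
    (t : ∀ k, Fin (s k + 1)) (θ : Fin (n + q) → ℝ) : ℂ :=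
  μ * ∏ k, ∏ i, ff β t k i (θ (Fin.castAdd q k))

theorem good_FFA (hβ : ∀ k i j, i ≠ j → 3 ≤ ‖β k i - β k j‖) (t : ∀ k, Fin (s k + 1)) :
    Good fun θ : Fin (n + q) → ℝ => ∏ k, ∏ i, ff β t k i (θ (Fin.castAdd q k)) :=
  good_prod Finset.univ fun k => good_prod Finset.univ fun i =>
    (one_ff hβ t k i).good (Fin.castAdd q k)

theorem good_PhT (hβ : ∀ k i j, i ≠ j → 3 ≤ ‖β k i - β k j‖) (hμ : μ ≠ 0)
    (t : ∀ k, Fin (s k + 1)) : Good (PhT q μ β t) :=
  (good_const hμ).mul (good_FFA hβ t)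

theorem per_PhT (hβ : ∀ k i j, i ≠ j → 3 ≤ ‖β k i - β k j‖) (t : ∀ k, Fin (s k + 1)) :
    Per (PhT q μ β t) := by
  intro θ j
  unfold PhT
  congr 1
  refine Finset.prod_congr rfl fun k _ => Finset.prod_congr rfl fun i _ => ?_
  exact (one_ff hβ t k i).periodic (Fin.castAdd q k) θ j

theorem norm_PhT_ge (hβ : ∀ k i j, i ≠ j → 3 ≤ ‖β k i - β k j‖) (t : ∀ k, Fin (s k + 1))
    (θ : Fin (n + q) → ℝ) : ‖μ‖ * ∏ k, (2 : ℝ) ^ s k ≤ ‖PhT q μ β t θ‖ :=
  norm_mul_FF_ge hβ t fun k => θ (Fin.castAdd q k)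

/-- the pairings with `Φ` -/
theorem pairing_PhT (hβ : ∀ k i j, i ≠ j → 3 ≤ ‖β k i - β k j‖) (hμ : μ ≠ 0)
    (t p : ∀ k, Fin (s k + 1)) :
    pairing (Fin.cons (PhT q μ β t) (vf (VV q β t p))) =
      (2 * Real.pi) ^ q *
        -pairing (Fin.cons (ww μ β t) (vf fun k => ff β t k (p k))) := by
  classical
  have hV := one_VV (q := q) hβ t p
  have gV : ∀ l, Good (vf (VV q β t p) l) := fun l => (hV l).good l
  have h1 := pairing_cons_mul (good_const (d := n + q) hμ) (good_FFA hβ t) gV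
  rw [pairing_const _ _ _ hV] at h1
  unfold vv at h1
  rw [prod_append_one] at h1
  have h2 : pairing (Fin.cons (fun θ : Fin (n + q) → ℝ => ∏ k, ∏ i,
      ff β t k i (θ (Fin.castAdd q k))) (vf (VV q β t p))) =
      ∑ k, ∑ i, pairing (Fin.cons (fun θ : Fin (n + q) → ℝ => ff β t k i
        (θ (Fin.castAdd q k))) (vf (VV q β t p))) := by
    have h3 := pairing_prod (F := fun k (θ : Fin (n + q) → ℝ) =>
      ∏ i, ff β t k i (θ (Fin.castAdd q k))) Finset.univ
      (fun k => good_prod Finset.univ fun i => (one_ff hβ t k i).good _) hV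
    refine Eq.trans h3 (Finset.sum_congr rfl fun k _ => ?_)
    exact pairing_prod (F := fun i (θ : Fin (n + q) → ℝ) => ff β t k i (θ (Fin.castAdd q k)))
      Finset.univ (fun i => (one_ff hβ t k i).good _) hV
  have h3 : ∀ k, ∑ i, pairing (Fin.cons (fun θ : Fin (n + q) → ℝ => ff β t k i
        (θ (Fin.castAdd q k))) (vf (VV q β t p))) = (2 * Real.pi) ^ (n + q) *
        ((∏ l ∈ Finset.univ.erase k, if p l = t l then (1 : ℝ) else 0) *
          ((if p k = t k then ∑ i, Real.log ‖β k i - β k (p k)‖ else 0) -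
            Real.log ‖β k (t k) - β k (p k)‖)) := by
    intro k
    simp only [pairing_ffA hβ]
    rw [← Finset.mul_sum, mul_assoc]
    congr 2
    simp only [mul_sub, Finset.sum_sub_distrib]
    congr 1
    · by_cases h : p k = t k
      · simp [h]
      · simp [h]
    · simp
  rw [pairing_ww hβ hμ]
  have h4 : pairing (Fin.cons (PhT q μ β t) (vf (VV q β t p))) = _ := h1
  rw [h4, h2]
  simp only [h3]
  rw [← Finset.mul_sum, pow_add]
  ring

theorem norm_he_sub_one {e : ℂ} (h : ‖e‖ ≤ 1 / 16) : ‖he e - 1‖ ≤ 3 * ‖e‖ := by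
  have h1 := norm_four_mul h
  have h2 : ‖-(4 * e)‖ = 4 * ‖e‖ := by rw [norm_neg, norm_mul, Complex.norm_ofNat]
  have h3 := Complex.norm_log_one_add_half_le_self (z := -(4 * e)) (by linarith)
  rw [← sub_eq_add_neg, h2] at h3
  have h4 : ‖Complex.log (1 - 4 * e) / 2‖ ≤ 3 * ‖e‖ := by
    rw [norm_div, Complex.norm_ofNat]
    linarith
  have h6 := Complex.norm_exp_sub_one_le (x := Complex.log (1 - 4 * e) / 2) (by linarith)
  have h7 : he e - 1 = (se e - 1) / 2 := by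
    unfold he
    ring
  rw [h7, norm_div, Complex.norm_ofNat]
  unfold se
  linarith

variable {w : Fin q → ℕ}

/-- the values of `y_i` -/
noncomputable def yT (n : ℕ) {q : ℕ} (θ : Fin (n + q) → ℝ) (i : Fin q) : ℂ :=
  circ 1 (θ (Fin.natAdd n i))

/-- the values of `(∑ y_i)/Φ` -/
noncomputable def kT (q : ℕ) (μ : ℂ) (β : ∀ k : Fin n, Fin (s k + 1) → ℂ)
    (t : ∀ k, Fin (s k + 1)) (θ : Fin (n + q) → ℝ) : ℂ :=
  (∑ i, yT n θ i) * (PhT q μ β t θ)⁻¹

/-- the values of `Φ - ∑ y_i` -/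
noncomputable def PsT (q : ℕ) (μ : ℂ) (β : ∀ k : Fin n, Fin (s k + 1) → ℂ)
    (t : ∀ k, Fin (s k + 1)) (θ : Fin (n + q) → ℝ) : ℂ :=
  PhT q μ β t θ * (1 - kT q μ β t θ)

/-- the values of `1/(Y (Φ - ∑ y_i)²)` -/
noncomputable def etT (w : Fin q → ℕ) (μ : ℂ) (β : ∀ k : Fin n, Fin (s k + 1) → ℂ)
    (t : ∀ k, Fin (s k + 1)) (θ : Fin (n + q) → ℝ) : ℂ :=
  ((∏ i, yT n θ i ^ (w i + 1)) * (PsT q μ β t θ * PsT q μ β t θ))⁻¹

/-- the values of `z` -/
noncomputable def zT (w : Fin q → ℕ) (μ : ℂ) (β : ∀ k : Fin n, Fin (s k + 1) → ℂ)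
    (t : ∀ k, Fin (s k + 1)) (θ : Fin (n + q) → ℝ) : ℂ :=
  PsT q μ β t θ * he (etT w μ β t θ)

theorem norm_yT (θ : Fin (n + q) → ℝ) (i : Fin q) : ‖yT n θ i‖ = 1 :=
  norm_circ (by norm_num) _

theorem good_yT (i : Fin q) : Good fun θ : Fin (n + q) → ℝ => yT n θ i :=
  one_circ.good (Fin.natAdd n i)

theorem per_yT (θ : Fin (n + q) → ℝ) (j : Fin (n + q)) (i : Fin q) :
    yT n (θ + Pi.single j 1) i = yT n θ i :=
  one_circ.periodic (Fin.natAdd n i) θ j

theorem norm_sum_yT (θ : Fin (n + q) → ℝ) : ‖∑ i, yT n θ i‖ ≤ q := by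
  refine (norm_sum_le _ _).trans (le_of_eq ?_)
  simp only [norm_yT, Finset.sum_const, Finset.card_univ, Fintype.card_fin, nsmul_eq_mul, mul_one]

section bounds

variable (hβ : ∀ k i j, i ≠ j → 3 ≤ ‖β k i - β k j‖) (hn : 0 < n) (hs : ∀ k, 1 ≤ s k)
  (hμ : 2 + (q : ℝ) ≤ ‖μ‖)

include hμ in
theorem mu_ne : μ ≠ 0 := by
  rw [← norm_pos_iff]
  have : (0 : ℝ) ≤ q := Nat.cast_nonneg q
  linarith

include hn hs hμ in
theorem mu_le : 4 + 2 * (q : ℝ) ≤ ‖μ‖ * ∏ k, (2 : ℝ) ^ s k := by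
  classical
  have h1 : (2 : ℝ) ≤ ∏ k, (2 : ℝ) ^ s k := by
    rw [← Finset.mul_prod_erase _ _ (Finset.mem_univ (⟨0, hn⟩ : Fin n))]
    have h2 : (2 : ℝ) ≤ 2 ^ s ⟨0, hn⟩ := by
      calc (2 : ℝ) = 2 ^ 1 := (pow_one _).symm
        _ ≤ 2 ^ s ⟨0, hn⟩ := pow_le_pow_right₀ (by norm_num) (hs _)
    have h3 : (1 : ℝ) ≤ ∏ k ∈ Finset.univ.erase (⟨0, hn⟩ : Fin n), (2 : ℝ) ^ s k :=
      Finset.one_le_prod fun k _ => one_le_pow₀ (by norm_num)
    calc (2 : ℝ) = 2 * 1 := (mul_one _).symm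
      _ ≤ _ := mul_le_mul h2 h3 zero_le_one (by positivity)
  calc 4 + 2 * (q : ℝ) = (2 + q) * 2 := by ring
    _ ≤ ‖μ‖ * ∏ k, (2 : ℝ) ^ s k := mul_le_mul hμ h1 (by norm_num) (norm_nonneg _)

include hβ hn hs hμ in
theorem norm_kT_le (t : ∀ k, Fin (s k + 1)) (θ : Fin (n + q) → ℝ) :
    ‖kT q μ β t θ‖ ≤ q / (‖μ‖ * ∏ k, (2 : ℝ) ^ s k) := by
  have hq : (0 : ℝ) ≤ q := Nat.cast_nonneg q
  have h1 := mu_le hn hs hμ
  unfold kT
  rw [norm_mul, norm_inv, ← div_eq_mul_inv]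
  exact div_le_div₀ hq (norm_sum_yT θ) (by linarith) (norm_PhT_ge hβ t θ)

include hβ hn hs hμ in
theorem norm_kT_le_half (t : ∀ k, Fin (s k + 1)) (θ : Fin (n + q) → ℝ) :
    ‖kT q μ β t θ‖ ≤ 1 / 2 := by
  have hq : (0 : ℝ) ≤ q := Nat.cast_nonneg q
  have h1 := mu_le hn hs hμ
  refine (norm_kT_le hβ hn hs hμ t θ).trans ?_
  rw [div_le_iff₀ (by linarith)]
  linarith

include hβ hn hs hμ in
theorem slit_kT (t : ∀ k, Fin (s k + 1)) (θ : Fin (n + q) → ℝ) :
    1 - kT q μ β t θ ∈ Complex.slitPlane := by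
  rw [sub_eq_add_neg]
  refine Complex.mem_slitPlane_of_norm_lt_one ?_
  rw [norm_neg]
  have := norm_kT_le_half hβ hn hs hμ t θ
  linarith

include hβ hn hs hμ in
theorem good_kT (t : ∀ k, Fin (s k + 1)) :
    Good fun θ : Fin (n + q) → ℝ => 1 - kT q μ β t θ := by
  have g := good_PhT (q := q) hβ (mu_ne hμ) t
  refine ⟨contDiff_const.sub ((ContDiff.sum fun i _ => (good_yT (n := n) i).smooth).mul
    (g.smooth.inv g.ne_zero)), fun θ => Complex.slitPlane_ne_zero (slit_kT hβ hn hs hμ t θ)⟩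

include hβ hn hs hμ in
theorem good_PsT (t : ∀ k, Fin (s k + 1)) : Good (PsT q μ β t) :=
  (good_PhT hβ (mu_ne hμ) t).mul (good_kT hβ hn hs hμ t)

include hβ in
theorem per_kT (t : ∀ k, Fin (s k + 1)) : Per (kT q μ β t) := by
  intro θ j
  unfold kT
  rw [per_PhT hβ t θ j]
  simp only [per_yT]

include hβ in
theorem per_PsT (t : ∀ k, Fin (s k + 1)) : Per (PsT q μ β t) := by
  intro θ j
  unfold PsT
  rw [per_PhT hβ t θ j, per_kT hβ t θ j]

include hβ hμ in
theorem norm_PsT_ge (t : ∀ k, Fin (s k + 1)) (θ : Fin (n + q) → ℝ) :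
    ‖μ‖ * ∏ k, (2 : ℝ) ^ s k - q ≤ ‖PsT q μ β t θ‖ := by
  have h0 := (good_PhT (q := q) hβ (mu_ne hμ) t).ne_zero θ
  have h1 : PsT q μ β t θ = PhT q μ β t θ - ∑ i, yT n θ i := by
    unfold PsT kT
    field_simp
  have h2 := norm_PhT_ge (q := q) (μ := μ) hβ t θ
  have h3 := norm_sub_norm_le (PhT q μ β t θ) (∑ i, yT n θ i)
  have h4 := norm_sum_yT θ
  rw [h1]
  linarith

include hβ hn hs hμ in
theorem good_etT (t : ∀ k, Fin (s k + 1)) : Good (etT w μ β t) := by
  have g := (good_prod Finset.univ fun i =>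
    Pool.Agent.TH690.SF.good_pow (good_yT (n := n) i) (w i + 1)).mul
    ((good_PsT hβ hn hs hμ t).mul (good_PsT hβ hn hs hμ t))
  exact ⟨g.smooth.inv g.ne_zero, fun θ => inv_ne_zero (g.ne_zero θ)⟩

include hβ in
theorem per_etT (t : ∀ k, Fin (s k + 1)) : Per (etT w μ β t) := by
  intro θ j
  unfold etT
  rw [per_PsT hβ t θ j]
  simp only [per_yT]

include hβ hn hs hμ in
theorem norm_etT_le (t : ∀ k, Fin (s k + 1)) (θ : Fin (n + q) → ℝ) :
    ‖etT w μ β t θ‖ ≤ 1 / (‖μ‖ * ∏ k, (2 : ℝ) ^ s k - q) ^ 2 := by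
  have hq : (0 : ℝ) ≤ q := Nat.cast_nonneg q
  have h1 := mu_le hn hs hμ
  have h2 := norm_PsT_ge (q := q) hβ hμ t θ
  set P : ℝ := ‖μ‖ * ∏ k, (2 : ℝ) ^ s k with hP
  have hP0 : 0 < P - q := by linarith
  unfold etT
  rw [norm_inv, norm_mul, norm_mul, norm_prod]
  simp only [norm_pow, norm_yT, one_pow, Finset.prod_const_one, one_mul]
  have h3 : (P - q) ^ 2 ≤ ‖PsT q μ β t θ‖ * ‖PsT q μ β t θ‖ := by
    rw [pow_two]
    exact mul_le_mul h2 h2 hP0.le (norm_nonneg _)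
  rw [one_div]
  exact inv_anti₀ (by positivity) h3

include hβ hn hs hμ in
theorem norm_etT_le' (t : ∀ k, Fin (s k + 1)) (θ : Fin (n + q) → ℝ) :
    ‖etT w μ β t θ‖ ≤ 1 / 16 := by
  have hq : (0 : ℝ) ≤ q := Nat.cast_nonneg q
  have h1 := mu_le hn hs hμ
  refine (norm_etT_le hβ hn hs hμ t θ).trans ?_
  set P : ℝ := ‖μ‖ * ∏ k, (2 : ℝ) ^ s k with hP
  have hP4 : 4 ≤ P - q := by linarith
  rw [div_le_div_iff₀ (by positivity) (by norm_num)]
  nlinarith

include hβ hn hs hμ in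
theorem good_heT (t : ∀ k, Fin (s k + 1)) : Good fun θ => he (etT w μ β t θ) :=
  good_he_comp (good_etT hβ hn hs hμ t) (norm_etT_le' hβ hn hs hμ t)

include hβ hn hs hμ in
theorem good_zT (t : ∀ k, Fin (s k + 1)) : Good (zT w μ β t) :=
  (good_PsT hβ hn hs hμ t).mul (good_heT hβ hn hs hμ t)

include hβ in
theorem per_zT (t : ∀ k, Fin (s k + 1)) : Per (zT w μ β t) := by
  intro θ j
  unfold zT
  rw [per_PsT hβ t θ j, per_etT hβ t θ j]

omit hβ in
theorem num_ineq {x : ℝ} (hx : 0 ≤ x) : 1 / 2 * (x / (2 + x)) + 9 / (4 + x) ^ 2 ≤ 9 / 16 := by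
  have h1 : 1 / 2 * (x / (2 + x)) + 9 / (4 + x) ^ 2 =
      (x * (4 + x) ^ 2 + 18 * (2 + x)) / (2 * (2 + x) * (4 + x) ^ 2) := by
    field_simp
    ring
  rw [h1, div_le_div_iff₀ (by positivity) (by norm_num)]
  nlinarith [mul_nonneg hx hx, mul_nonneg hx (mul_nonneg hx hx)]

include hβ hn hs hμ in
/-- The regulator matrix is nonsingular. -/
theorem nonsing_FB :
    (Matrix.of fun p t : (∀ k, Fin (s k + 1)) =>
      pairing (Fin.cons (zT w μ β t) (vf (VV q β t p)))).det ≠ 0 := by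
  classical
  have hq : (0 : ℝ) ≤ q := Nat.cast_nonneg q
  have hμ0 := mu_ne hμ
  have hP := mu_le hn hs hμ
  have hpi := Real.pi_pos
  set P : ℝ := ‖μ‖ * ∏ k, (2 : ℝ) ^ s k with hPd
  have hP4 : 4 ≤ P - q := by linarith
  have hP0 : 0 < P := by linarith
  refine det_ne_zero_of_approx _
    (fun p t => (2 * Real.pi) ^ q * -pairing (Fin.cons (ww μ β t) (vf fun k => ff β t k (p k))))
    (κ := (2 * Real.pi) ^ q * ((2 * Real.pi) ^ n * Real.log ‖μ‖))
    (E := (3 / 2 * (q / P) + 9 / 2 * (1 / (P - q) ^ 2)) * (2 * Real.pi) ^ (n + q))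
    (fun p => by rw [← Finset.mul_sum, sum_pairing_ww hβ hμ0 p])
    (fun p t hpt => mul_nonpos_of_nonneg_of_nonpos (by positivity)
      (pairing_ww_nonpos hβ hμ0 hpt)) (fun p t => ?_) ?_
  · have hV := one_VV (q := q) hβ t p
    have gV : ∀ l, Good (vf (VV q β t p) l) := fun l => (hV l).good l
    have gPh := good_PhT (q := q) hβ hμ0 t
    have gk := good_kT hβ hn hs hμ t
    have gPs := good_PsT hβ hn hs hμ t
    have gh := good_heT (w := w) hβ hn hs hμ t
    have h1 : pairing (Fin.cons (zT w μ β t) (vf (VV q β t p))) =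
        pairing (Fin.cons (PsT q μ β t) (vf (VV q β t p))) +
        pairing (Fin.cons (fun θ => he (etT w μ β t θ)) (vf (VV q β t p))) :=
      pairing_cons_mul gPs gh gV
    have h2 : pairing (Fin.cons (PsT q μ β t) (vf (VV q β t p))) =
        pairing (Fin.cons (PhT q μ β t) (vf (VV q β t p))) +
        pairing (Fin.cons (fun θ => 1 - kT q μ β t θ) (vf (VV q β t p))) :=
      pairing_cons_mul gPh gk gV
    have h3 := abs_pairing_log_le (d := n + q) (by omega) gk.smooth (fun θ i => by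
        simp only
        rw [per_kT hβ t θ i]) (slit_kT hβ hn hs hμ t) hV (A := 3 / 2 * (q / P))
      (C := 2 * Real.pi)
      (fun θ => by
        have h5 := norm_kT_le_half hβ hn hs hμ t θ
        have h6 := Complex.norm_log_one_add_half_le_self (z := -kT q μ β t θ) (by
          rw [norm_neg]
          linarith)
        rw [← sub_eq_add_neg, norm_neg] at h6
        calc _ ≤ 3 / 2 * ‖kT q μ β t θ‖ := h6
          _ ≤ 3 / 2 * (q / P) :=
            mul_le_mul_of_nonneg_left (norm_kT_le hβ hn hs hμ t θ) (by norm_num))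
      (fun l x => norm_ld_VV hβ t p l x)
    have e2 : ∀ θ, he (etT w μ β t θ) = 1 + (he (etT w μ β t θ) - 1) := fun θ => by ring
    have hb : ∀ θ, ‖he (etT w μ β t θ) - 1‖ ≤ 3 * ‖etT w μ β t θ‖ := fun θ =>
      norm_he_sub_one (norm_etT_le' hβ hn hs hμ t θ)
    have hb2 : ∀ θ, ‖he (etT w μ β t θ) - 1‖ ≤ 3 / 16 := fun θ => by
      have := norm_etT_le' (w := w) hβ hn hs hμ t θ
      linarith [hb θ]
    have h4 := abs_pairing_log_le (d := n + q) (by omega) gh.smooth (fun θ i => by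
        simp only
        rw [per_etT hβ t θ i]) (fun θ => by
        rw [e2]
        exact Complex.mem_slitPlane_of_norm_lt_one (lt_of_le_of_lt (hb2 θ) (by norm_num))) hV
      (A := 9 / 2 * (1 / (P - q) ^ 2)) (C := 2 * Real.pi) (fun θ => by
        rw [e2]
        have h5 := Complex.norm_log_one_add_half_le_self (z := he (etT w μ β t θ) - 1)
          ((hb2 θ).trans (by norm_num))
        calc _ ≤ 3 / 2 * ‖he (etT w μ β t θ) - 1‖ := h5
          _ ≤ 3 / 2 * (3 * ‖etT w μ β t θ‖) := mul_le_mul_of_nonneg_left (hb θ) (by norm_num)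
          _ = 9 / 2 * ‖etT w μ β t θ‖ := by ring
          _ ≤ 9 / 2 * (1 / (P - q) ^ 2) :=
            mul_le_mul_of_nonneg_left (norm_etT_le hβ hn hs hμ t θ) (by norm_num))
      (fun l x => norm_ld_VV hβ t p l x)
    have h5 : pairing (Fin.cons (zT w μ β t) (vf (VV q β t p))) -
        (2 * Real.pi) ^ q * -pairing (Fin.cons (ww μ β t) (vf fun k => ff β t k (p k))) =
        pairing (Fin.cons (fun θ => 1 - kT q μ β t θ) (vf (VV q β t p))) +
        pairing (Fin.cons (fun θ => he (etT w μ β t θ)) (vf (VV q β t p))) := by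
      rw [h1, h2, pairing_PhT hβ hμ0]
      ring
    rw [h5]
    refine (abs_add_le _ _).trans ((add_le_add h3 h4).trans (le_of_eq ?_))
    ring
  · rw [Fintype.card_pi]
    simp only [Fintype.card_fin]
    push_cast
    set C : ℝ := ∏ k, ((s k : ℝ) + 1) with hC
    have hC0 : 0 ≤ C := Finset.prod_nonneg fun k _ => by positivity
    have hM0 : 0 < ‖μ‖ := by linarith
    -- the first error
    have h1 : C * ∏ k, (1 / 2 : ℝ) ^ s k ≤ 1 := by
      rw [hC, ← Finset.prod_mul_distrib]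
      exact Finset.prod_le_one (fun k _ => by positivity) fun k _ => succ_mul_half_pow_le (s k)
    have h2 : P⁻¹ = ‖μ‖⁻¹ * ∏ k, (1 / 2 : ℝ) ^ s k := by
      rw [hPd, mul_inv, ← Finset.prod_inv_distrib]
      congr 1
      refine Finset.prod_congr rfl fun k _ => ?_
      rw [one_div, inv_pow]
    have hμinv : ‖μ‖⁻¹ ≤ (2 + (q : ℝ))⁻¹ := inv_anti₀ (by positivity) hμ
    have e1 : C * (3 / 2 * (q / P)) ≤ 3 / 2 * (q / (2 + q)) := by
      have h3 : C * (3 / 2 * (q / P)) = 3 / 2 * q * (‖μ‖⁻¹ * (C * ∏ k, (1 / 2 : ℝ) ^ s k)) := by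
        rw [div_eq_mul_inv (q : ℝ) P, h2]
        ring
      rw [h3]
      have h4 : ‖μ‖⁻¹ * (C * ∏ k, (1 / 2 : ℝ) ^ s k) ≤ (2 + (q : ℝ))⁻¹ * 1 :=
        mul_le_mul hμinv h1 (mul_nonneg hC0 (Finset.prod_nonneg fun k _ => by positivity))
          (by positivity)
      calc 3 / 2 * (q : ℝ) * (‖μ‖⁻¹ * (C * ∏ k, (1 / 2 : ℝ) ^ s k)) ≤
          3 / 2 * (q : ℝ) * ((2 + (q : ℝ))⁻¹ * 1) := mul_le_mul_of_nonneg_left h4 (by positivity)
        _ = 3 / 2 * (q / (2 + q)) := by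
            rw [div_eq_mul_inv (q : ℝ) (2 + q)]
            ring
    -- the second error
    have h5 : C * ∏ k, (1 / 4 : ℝ) ^ s k ≤ 1 / 2 := by
      rw [hC, ← Finset.prod_mul_distrib,
        ← Finset.mul_prod_erase _ _ (Finset.mem_univ (⟨0, hn⟩ : Fin n))]
      have h6 : ∏ k ∈ Finset.univ.erase (⟨0, hn⟩ : Fin n), (((s k : ℝ) + 1) * (1 / 4) ^ s k) ≤ 1 :=
        Finset.prod_le_one (fun k _ => by positivity) fun k _ =>
          (succ_mul_quarter_pow_le (hs k)).trans (by norm_num)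
      calc _ ≤ (1 / 2 : ℝ) * 1 := mul_le_mul (succ_mul_quarter_pow_le (hs _)) h6
            (Finset.prod_nonneg fun k _ => by positivity) (by norm_num)
        _ = 1 / 2 := mul_one _
    have h6 : (P ^ 2)⁻¹ = (‖μ‖ ^ 2)⁻¹ * ∏ k, (1 / 4 : ℝ) ^ s k := by
      rw [hPd, mul_pow, mul_inv, ← Finset.prod_pow, ← Finset.prod_inv_distrib]
      congr 1
      refine Finset.prod_congr rfl fun k _ => ?_
      rw [← pow_mul, mul_comm (s k) 2, pow_mul, ← inv_pow]
      norm_num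
    have h7 : P * ((4 + q) / (4 + 2 * q)) ≤ P - q := by
      have h8 : P * ((4 + q) / (4 + 2 * q)) = P * (4 + q) / (4 + 2 * q) := by ring
      rw [h8, div_le_iff₀ (by positivity)]
      nlinarith
    have h8 : 1 / (P - q) ^ 2 ≤ (P ^ 2)⁻¹ * ((4 + 2 * q) / (4 + q)) ^ 2 := by
      have h9 : (P * ((4 + q) / (4 + 2 * q))) ^ 2 ≤ (P - q) ^ 2 :=
        pow_le_pow_left₀ (by positivity) h7 2
      rw [one_div]
      refine (inv_anti₀ (by positivity) h9).trans (le_of_eq ?_)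
      rw [mul_pow, mul_inv, ← inv_pow ((4 + (q : ℝ)) / (4 + 2 * q)), inv_div]
    have h9 : (‖μ‖ ^ 2)⁻¹ ≤ ((2 + (q : ℝ)) ^ 2)⁻¹ :=
      inv_anti₀ (by positivity) (pow_le_pow_left₀ (by positivity) hμ 2)
    have e3 : C * (9 / 2 * (1 / (P - q) ^ 2)) ≤ 9 / (4 + q) ^ 2 := by
      calc C * (9 / 2 * (1 / (P - q) ^ 2)) ≤
          C * (9 / 2 * ((P ^ 2)⁻¹ * ((4 + 2 * q) / (4 + q)) ^ 2)) :=
            mul_le_mul_of_nonneg_left (mul_le_mul_of_nonneg_left h8 (by norm_num)) hC0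
        _ = 9 / 2 * ((4 + 2 * q) / (4 + q)) ^ 2 * ((‖μ‖ ^ 2)⁻¹ *
            (C * ∏ k, (1 / 4 : ℝ) ^ s k)) := by
            rw [h6]
            ring
        _ ≤ 9 / 2 * ((4 + 2 * q) / (4 + q)) ^ 2 * (((2 + (q : ℝ)) ^ 2)⁻¹ * (1 / 2)) := by
            refine mul_le_mul_of_nonneg_left ?_ (by positivity)
            exact mul_le_mul h9 h5 (mul_nonneg hC0 (Finset.prod_nonneg fun k _ => by positivity))
              (by positivity)
        _ = 9 / (4 + q) ^ 2 := by
            field_simp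
            ring
    have hlog2 : (0.6931471803 : ℝ) < Real.log 2 := Real.log_two_gt_d9
    have hlog : Real.log 2 + q / (2 + q) ≤ Real.log ‖μ‖ := by
      have h10 : Real.log 2 + Real.log ((2 + q) / 2) = Real.log (2 + q) := by
        rw [← Real.log_mul (by norm_num) (by positivity)]
        congr 1
        ring
      have h11 := Real.one_sub_inv_le_log_of_pos (x := (2 + (q : ℝ)) / 2) (by positivity)
      have h12 : 1 - ((2 + (q : ℝ)) / 2)⁻¹ = q / (2 + q) := by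
        rw [inv_div]
        field_simp
        ring
      have h13 : Real.log (2 + q) ≤ Real.log ‖μ‖ := Real.log_le_log (by positivity) hμ
      linarith
    have hnum := num_ineq hq
    have h14 : C * (3 / 2 * (q / P) + 9 / 2 * (1 / (P - q) ^ 2)) < Real.log ‖μ‖ := by
      rw [mul_add]
      linarith
    have h15 : C * ((3 / 2 * (q / P) + 9 / 2 * (1 / (P - q) ^ 2)) * (2 * Real.pi) ^ (n + q)) =
        (2 * Real.pi) ^ q * ((2 * Real.pi) ^ n *
          (C * (3 / 2 * (q / P) + 9 / 2 * (1 / (P - q) ^ 2)))) := by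
      rw [pow_add]
      ring
    rw [h15]
    exact mul_lt_mul_of_pos_left (mul_lt_mul_of_pos_left h14 (by positivity)) (by positivity)

end bounds

end matrix

end Pool.Agent.TH826.UM
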