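import Pool.Agent.TH826.UM.Scale
import Pool.Agent.TH826.UM.DC
set_option autoImplicit false

/-!
Smoothness of the double covers `z + 1/z = λ ∏_k ∏_i (x_k - a_{k,i})`.
-/

namespace Pool.Agent.TH826.UM

open Polynomial

open Pool.Agent.TH826.MH (qq eqn_eq pderiv_eqn eval_aeval)

variable {K : Type*} [Field K] {n : ℕ} {r : Fin n → ℕ}

/-- the values of `λ ∏_k q_k(x_k)` at its critical points -/
theorem crit_ge (σ : K →+* ℂ) (a : ∀ k, Fin (r k + 1) → K) {δ : Fin n → ℝ}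
    (hδ : ∀ k, 0 < δ k) (ha : ∀ k i j, i ≠ j → 2 * δ k ≤ ‖σ (a k i) - σ (a k j)‖) {lam : K}
    (x : Fin n → ℂ) (h0 : σ lam * ∏ k, (qq (a k)).eval₂ σ (x k) ≠ 0)
    (hcon : ∀ k, MvPolynomial.eval₂ σ x (MvPolynomial.pderiv k (MH.eqn lam a)) = 0) :
    ‖σ lam‖ * ∏ k, δ k ^ (r k + 1) ≤ ‖σ lam * ∏ k, (qq (a k)).eval₂ σ (x k)‖ := by
  have hmap : ∀ k, (qq (a k)).map σ = qq fun i => σ (a k i) := by
    intro k
    unfold qq
    rw [Polynomial.map_prod]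
    refine Finset.prod_congr rfl fun i _ => ?_
    rw [Polynomial.map_sub, map_X, map_C]
  have h3 : σ lam ≠ 0 ∧ ∏ k, (qq (a k)).eval₂ σ (x k) ≠ 0 := mul_ne_zero_iff.1 h0
  have hcrit : ∀ k, (derivative (qq (a k))).eval₂ σ (x k) = 0 := by
    intro k
    have h2 := hcon k
    rw [pderiv_eqn, MvPolynomial.eval₂_mul, MvPolynomial.eval₂_mul, MvPolynomial.eval₂_C,
      eval_aeval, MvPolynomial.eval₂_prod] at h2
    simp only [eval_aeval] at h2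
    have h4 : ∏ l ∈ Finset.univ.erase k, (qq (a l)).eval₂ σ (x l) ≠ 0 :=
      Finset.prod_ne_zero_iff.2 fun l _ => (Finset.prod_ne_zero_iff.1 h3.2) l (Finset.mem_univ l)
    rcases mul_eq_zero.1 h2 with h5 | h5
    · exact absurd h5 h3.1
    · rcases mul_eq_zero.1 h5 with h6 | h6
      · exact h6
      · exact absurd h6 h4
  have hge : ∀ k, δ k ^ (r k + 1) ≤ ‖(qq (a k)).eval₂ σ (x k)‖ := by
    intro k
    rw [← eval_map, hmap]
    refine le_crit _ (hδ k) (ha k) (x k) ?_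
    rw [← hmap, derivative_map, eval_map]
    exact hcrit k
  rw [norm_mul, norm_prod]
  refine mul_le_mul_of_nonneg_left ?_ (norm_nonneg _)
  exact Finset.prod_le_prod (fun k _ => pow_nonneg (hδ k).le _) fun k _ => hge k

theorem smooth_DC (hn : 0 < n) (σ : K →+* ℂ) (D : MK.Data K r) {δ : Fin n → ℝ}
    (hδ : ∀ k, 0 < δ k) (hsep : ∀ k i j, i ≠ j → 3 * δ k ≤ ‖σ (D.a k i) - σ (D.a k j)‖)
    (hlam : 2 ≤ ‖σ D.lam‖ * ∏ k, δ k ^ (r k + 1)) (x : Fin n → ℂ) (z : ℂ)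
    (hz : z ^ 2 - MvPolynomial.eval₂ σ x (MK.Phi D) * z + 1 = 0) :
    2 * z - MvPolynomial.eval₂ σ x (MK.Phi D) ≠ 0 ∨
      ∃ k, MvPolynomial.eval₂ σ x (MvPolynomial.pderiv k (MK.Phi D)) * z ≠ 0 := by
  by_contra hcon
  push Not at hcon
  obtain ⟨h1, h2⟩ := hcon
  set Φ : ℂ := MvPolynomial.eval₂ σ x (MK.Phi D) with hΦ
  have hz2 : z ^ 2 = 1 := by linear_combination -hz + z * h1
  have hzn : ‖z‖ = 1 := by
    have h3 := congrArg norm hz2
    rw [norm_pow, norm_one] at h3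
    exact (pow_eq_one_iff_of_nonneg (norm_nonneg z) two_ne_zero).1 h3
  have hz0 : z ≠ 0 := by
    intro h
    rw [h, norm_zero] at hzn
    exact zero_ne_one hzn
  have hΦ2 : ‖Φ‖ = 2 := by
    have h3 : Φ = 2 * z := by linear_combination -h1
    rw [h3, norm_mul, hzn, mul_one, Complex.norm_ofNat]
  have hP : MK.Phi D = MH.eqn D.lam D.a + 1 := by
    unfold MK.Phi MH.eqn
    ring
  have hcon : ∀ k, MvPolynomial.eval₂ σ x (MvPolynomial.pderiv k (MH.eqn D.lam D.a)) = 0 := by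
    intro k
    have h3 := (mul_eq_zero.1 (h2 k)).resolve_right hz0
    rw [hP, map_add, MvPolynomial.pderiv_one, add_zero] at h3
    exact h3
  have hval : Φ = σ D.lam * ∏ k, (qq (D.a k)).eval₂ σ (x k) := by
    rw [hΦ, hP, eqn_eq D.lam D.a ⟨0, hn⟩, sub_add_cancel, MvPolynomial.eval₂_mul,
      MvPolynomial.eval₂_mul, MvPolynomial.eval₂_C, eval_aeval, MvPolynomial.eval₂_prod,
      ← Finset.mul_prod_erase _ _ (Finset.mem_univ (⟨0, hn⟩ : Fin n))]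
    simp only [eval_aeval]
  have h0 : σ D.lam * ∏ k, (qq (D.a k)).eval₂ σ (x k) ≠ 0 := by
    rw [← hval, ← norm_pos_iff, hΦ2]
    norm_num
  have h3 := crit_ge σ D.a (δ := fun k => 3 / 2 * δ k) (fun k => by
    have := hδ k
    positivity) (fun k i j hij => by
      have := hsep k i j hij
      linarith) x h0 hcon
  rw [← hval, hΦ2] at h3
  have h4 : ∏ k, (3 / 2 * δ k) ^ (r k + 1) = (∏ k, (3 / 2 : ℝ) ^ (r k + 1)) *
      ∏ k, δ k ^ (r k + 1) := by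
    rw [← Finset.prod_mul_distrib]
    refine Finset.prod_congr rfl fun k _ => ?_
    rw [mul_pow]
  have h5 : (3 / 2 : ℝ) ≤ ∏ k, (3 / 2 : ℝ) ^ (r k + 1) := by
    classical
    rw [← Finset.mul_prod_erase _ _ (Finset.mem_univ (⟨0, hn⟩ : Fin n))]
    have h6 : (3 / 2 : ℝ) ≤ (3 / 2) ^ (r ⟨0, hn⟩ + 1) := by
      calc (3 / 2 : ℝ) = (3 / 2) ^ 1 := (pow_one _).symm
        _ ≤ (3 / 2) ^ (r ⟨0, hn⟩ + 1) := pow_le_pow_right₀ (by norm_num) (by omega)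
    have h7 : (1 : ℝ) ≤ ∏ k ∈ Finset.univ.erase (⟨0, hn⟩ : Fin n), (3 / 2 : ℝ) ^ (r k + 1) :=
      Finset.one_le_prod fun k _ => one_le_pow₀ (by norm_num)
    calc (3 / 2 : ℝ) = 3 / 2 * 1 := (mul_one _).symm
      _ ≤ _ := mul_le_mul h6 h7 zero_le_one (by positivity)
  rw [h4] at h3
  have h8 : (∏ k, (3 / 2 : ℝ) ^ (r k + 1)) * (‖σ D.lam‖ * ∏ k, δ k ^ (r k + 1)) ≤ 2 := by
    linarith
  have h9 : (3 / 2 : ℝ) * 2 ≤
      (∏ k, (3 / 2 : ℝ) ^ (r k + 1)) * (‖σ D.lam‖ * ∏ k, δ k ^ (r k + 1)) :=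
    mul_le_mul h5 hlam (by norm_num) (by linarith)
  linarith

end Pool.Agent.TH826.UM
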