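import Pool.Agent.TH826.UM.Main
import Pool.Agent.TH826.MH.Tori
set_option autoImplicit false

/-!
The tori on the hypersurface `λ ∏_k ∏_i (x_k - a_{k,i}) = 1` and the regulator matrix.
-/

namespace Pool.Agent.TH826.UM

open Pool.Agent.TH826.MK

open Pool.Agent.TH826.MH (CRing fpol ent ux mkT mkT_ux evX_fpol good_w)

theorem exists_tori {K : Type*} [Field K] {σ : K →+* ℂ} {lam : K} {d : ℕ} (hd : 0 < d)
    {r : Fin (d + 1) → ℕ} {a : ∀ k, Fin (r k + 1) → K}
    (hsep : ∀ k i j, i ≠ j → 3 ≤ ‖σ (a k i) - σ (a k j)‖) (hlam : 2 ≤ ‖σ lam‖) :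
    ∃ Γ : (∀ k, Fin (r k)) → Torus (CRing lam a) d,
      (∀ t θ (x : K), (Γ t).e θ (fpol lam a (MvPolynomial.C x)) = σ x) ∧
      (Matrix.of fun t i : (∀ k, Fin (r k)) => (Γ t).reg (symb (ent lam a i))).det ≠ 0 := by
  classical
  set β0 : Fin (r 0 + 1) → ℂ := fun i => σ (a 0 i) with hβ0d
  set β : ∀ k : Fin d, Fin (r k.succ + 1) → ℂ := fun k i => σ (a k.succ i) with hβd
  have hβ0 : ∀ i j, i ≠ j → 3 ≤ ‖β0 i - β0 j‖ := hsep 0
  have hβ : ∀ k i j, i ≠ j → 3 ≤ ‖β k i - β k j‖ := fun k => hsep k.succ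
  have hlam0 : σ lam ≠ 0 := by
    rw [← norm_pos_iff]
    linarith
  obtain ⟨G, hG1, hG2, hG3, hG4⟩ := exists_G hβ0
  have hns := nonsing hd hβ0 hβ hlam hG1 hG2 hG3 hG4
  have hw := fun q θ => norm_ww_le_half hβ hlam q θ
  have gw : ∀ q, Good (ww (σ lam) β q) := fun q => good_w (good_FF hβ q) hlam0
  set X : (∀ k, Fin (r k + 1)) → (Fin d → ℝ) → (Fin (d + 1) → ℂ) := fun q θ =>
    Fin.cons (G (q 0) (ww (σ lam) β (fun k => q k.succ) θ))
      (fun k => circ 1 (θ k) + β k (q k.succ)) with hX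
  have hX0 : ∀ q θ, X q θ 0 = G (q 0) (ww (σ lam) β (fun k => q k.succ) θ) := fun q θ => rfl
  have hXs : ∀ q θ (k : Fin d), X q θ k.succ = circ 1 (θ k) + β k (q k.succ) :=
    fun q θ k => rfl
  have hXc : ∀ q, ContDiff ℝ 2 (X q) := by
    intro q
    refine contDiff_pi.2 fun k => ?_
    refine Fin.cases ?_ (fun k => ?_) k
    · simp only [hX0]
      rw [contDiff_iff_contDiffAt]
      intro θ
      exact ((hG1 _ _ (hw _ θ)).contDiffAt.restrict_scalars ℝ).comp θ
        (gw _).smooth.contDiffAt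
    · simp only [hXs]
      exact ((contDiff_circ 1).comp (contDiff_apply ℝ ℝ k)).add contDiff_const
  have hXp : ∀ q θ i, X q (θ + Pi.single i 1) = X q θ := by
    intro q θ i
    funext k
    refine Fin.cases ?_ (fun k => ?_) k
    · rw [hX0, hX0, per_ww hβ _ θ i]
    · rw [hXs, hXs]
      congr 1
      exact congrFun (tpt_add_single (fun _ => 1) θ i) k
  have hXf : ∀ q θ (k : Fin d) i, X q θ k.succ - σ (a k.succ i) =
      ff β (fun k => q k.succ) k i (θ k) := by
    intro q θ k i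
    rw [hXs]
    unfold ff
    simp only [hβd]
    ring
  have hXx : ∀ q θ, σ lam * ∏ k, ∏ i, (X q θ k - σ (a k i)) = 1 := by
    intro q θ
    rw [Fin.prod_univ_succ]
    have h1 : ∏ i, (X q θ 0 - σ (a 0 i)) = ww (σ lam) β (fun k => q k.succ) θ :=
      hG2 _ _ (hw _ θ)
    have h2 : ∏ k : Fin d, ∏ i, (X q θ k.succ - σ (a k.succ i)) =
        FF β (fun k => q k.succ) θ := by
      unfold FF
      exact Finset.prod_congr rfl fun k _ => Finset.prod_congr rfl fun i _ => hXf q θ k i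
    rw [h1, h2]
    unfold ww
    have h3 := (good_FF hβ (fun k => q k.succ)).ne_zero θ
    field_simp
  set Γ' : (∀ k, Fin (r k + 1)) → Torus (CRing lam a) d := fun q =>
    mkT (X q) (hXc q) (hXp q) (hXx q) with hΓ'
  set W : Matrix (∀ k, Fin (r k + 1)) (∀ k, Fin (r k + 1)) ℝ :=
    Matrix.of fun p q => (Γ' q).pair fun k => ux lam a k (p k) with hW
  set E : (∀ k, Fin (r k + 1)) ≃ Fin (r 0 + 1) × (∀ k : Fin d, Fin (r k.succ + 1)) :=
    (Fin.consEquiv fun k => Fin (r k + 1)).symm with hE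
  have hWE : W = -((Matrix.of (RR β0 β (σ lam) G)).submatrix E E) := by
    ext p q
    rw [Matrix.neg_apply, Matrix.submatrix_apply, Matrix.of_apply, hW, Matrix.of_apply]
    unfold RR
    rw [neg_neg]
    unfold Torus.pair
    congr 1
    funext k θ
    rw [hΓ', mkT_ux]
    refine Fin.cases ?_ (fun k => ?_) k
    · rfl
    · exact hXf q θ k (p k.succ)
  have hWdet : W.det ≠ 0 := by
    rw [hWE, Matrix.det_neg, Matrix.det_submatrix_equiv_self]
    exact mul_ne_zero (pow_ne_zero _ (by norm_num)) hns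
  obtain ⟨e, he⟩ := exists_columns W hWdet
  refine ⟨fun t => Γ' (e t), fun t θ x => ?_, ?_⟩
  · show MH.evX (hXx (e t) θ) (fpol lam a (MvPolynomial.C x)) = σ x
    rw [evX_fpol]
    simp
  · have hM : (Matrix.of fun t i : (∀ k, Fin (r k)) =>
        (Γ' (e t)).reg (symb (ent lam a i))) = Matrix.of fun t i : (∀ k, Fin (r k)) =>
        ∑ p, (∏ k, UB.dd (i k) (p k)) * W p (e t) := by
      ext t i
      rw [Matrix.of_apply, Matrix.of_apply, Torus.reg_symb]
      exact pair_expand (Γ' (e t)) (fun k => ux lam a k) i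
    rw [hM]
    exact he

end Pool.Agent.TH826.UM
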