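import Pool.Agent.TH826.UH.Sep
set_option autoImplicit false

/-!
The branches of `y` in `∏ (y - β_j) = w`.
-/

namespace Pool.Agent.TH826.UM

open Polynomial Metric

open Pool.Agent.TH826.UH

theorem exists_G {n : ℕ} {β : Fin (n + 1) → ℂ} (hβ : ∀ i j, i ≠ j → 3 ≤ ‖β i - β j‖) :
    ∃ G : Fin (n + 1) → ℂ → ℂ,
      (∀ l w, ‖w‖ ≤ 1 / 2 → AnalyticAt ℂ (G l) w) ∧
      (∀ l w, ‖w‖ ≤ 1 / 2 → ∏ j, (G l w - β j) = w) ∧
      (∀ j w, ‖w‖ ≤ 1 / 2 → ∏ l, (β j - G l w) = -w) ∧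
      (∀ l w, ‖w‖ ≤ 1 / 2 → ‖G l w - β l‖ ≤ ‖w‖ * (1 / 2) ^ n) := by
  classical
  obtain ⟨η, H⟩ := sepd_fam (g := n) (b := β) (lam := 3) (t := 0)
    (F := C 0 + C 3 * ∏ i, (X - C (β i))) (by norm_num) rfl (ρ := 1) (B := 1) one_pos
    (fun i j hij => by linarith [hβ i j hij]) (by simp) (fun x hx => by
      calc (1 : ℝ) = ∏ _i : Fin (n + 1), (1 : ℝ) := by simp
        _ ≤ ∏ i, ‖x - β i‖ := Finset.prod_le_prod (fun _ _ => zero_le_one) fun i _ => hx i)
    (by simp; norm_num)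
  obtain ⟨y, han, hdisc, hprod, -⟩ := H.exists_branches
  have hlead := leadingCoeff_fam (g := n) (b := β) (lam := 3) (t := 0)
    (F := C 0 + C 3 * ∏ i, (X - C (β i))) (by norm_num) rfl
  have hu : ∀ w : ℂ, ‖w‖ ≤ 1 / 2 → 3 * w ∈ ball (0 : ℂ) (2 + η) := by
    intro w hw
    rw [mem_ball_zero_iff, norm_mul]
    have h2 := H.eta
    have h3 : ‖(3 : ℂ)‖ = 3 := by simp
    rw [h3]
    linarith
  have hfac : ∀ (w : ℂ), ‖w‖ ≤ 1 / 2 → ∀ z : ℂ,
      ∏ j, (z - β j) - w = ∏ l, (z - y l (3 * w)) := by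
    intro w hw z
    have h1 := congrArg (fun p => p.eval z) (hprod _ (hu w hw))
    rw [hlead] at h1
    simp only [eval_sub, eval_add, eval_mul, eval_C, eval_prod, eval_X, zero_add] at h1
    have h3 : (3 : ℂ) ≠ 0 := by norm_num
    refine mul_left_cancel₀ h3 ?_
    linear_combination h1
  have hval : ∀ l w, ‖w‖ ≤ 1 / 2 → ∏ j, (y l (3 * w) - β j) = w := by
    intro l w hw
    have h1 := hfac w hw (y l (3 * w))
    have h2 : ∏ l', (y l (3 * w) - y l' (3 * w)) = 0 :=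
      Finset.prod_eq_zero (Finset.mem_univ l) (sub_self _)
    rw [h2] at h1
    exact sub_eq_zero.1 h1
  refine ⟨fun l w => y l (3 * w), fun l w hw => ?_, hval, fun j w hw => ?_, fun l w hw => ?_⟩
  · exact (han l _ (hu w hw)).fun_comp (by fun_prop)
  · rw [← hfac w hw (β j), Finset.prod_eq_zero (Finset.mem_univ j) (sub_self _), zero_sub]
  · set Yl : ℂ := y l (3 * w) with hYl
    set δ : ℝ := ‖Yl - β l‖ with hδ
    have h1 := hval l w hw
    rw [← hYl] at h1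
    have h2 : δ * ∏ j ∈ Finset.univ.erase l, ‖Yl - β j‖ = ‖w‖ := by
      have h3 := congrArg norm h1
      rw [norm_prod, ← Finset.mul_prod_erase _ _ (Finset.mem_univ l)] at h3
      exact h3
    have hd1 : δ < 1 := hdisc l _ (hu w hw)
    have hd0 : 0 ≤ δ := norm_nonneg _
    have hfar : ∀ j ∈ Finset.univ.erase l, 2 ≤ ‖Yl - β j‖ := by
      intro j hj
      have h3 := hβ j l (Finset.ne_of_mem_erase hj)
      have h4 : ‖β j - β l‖ ≤ ‖Yl - β l‖ + ‖Yl - β j‖ := by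
        have : β j - β l = (Yl - β l) - (Yl - β j) := by ring
        rw [this]
        exact norm_sub_le _ _
      linarith
    have hpow : δ * 2 ^ n ≤ ‖w‖ := by
      rw [← h2]
      refine mul_le_mul_of_nonneg_left ?_ hd0
      calc (2 : ℝ) ^ n = ∏ _j ∈ Finset.univ.erase l, (2 : ℝ) := by
            rw [Finset.prod_const, Finset.card_erase_of_mem (Finset.mem_univ l), Finset.card_univ,
              Fintype.card_fin, Nat.add_sub_cancel]
        _ ≤ _ := Finset.prod_le_prod (fun _ _ => by norm_num) hfar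
    have h4 : (2 : ℝ) ^ n * (1 / 2) ^ n = 1 := by
      rw [← mul_pow]
      norm_num
    calc δ = δ * 2 ^ n * (1 / 2) ^ n := by rw [mul_assoc, h4, mul_one]
      _ ≤ ‖w‖ * (1 / 2) ^ n := mul_le_mul_of_nonneg_right hpow (by positivity)

end Pool.Agent.TH826.UM
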