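import Pool.Agent.TH826.UM.Val
import Pool.Agent.TH826.UM.Root
set_option autoImplicit false

/-!
The regulators of the symbols `{y - β_{0,j}, x_1 - β_{1,p_1}, ..., x_d - β_{d,p_d}}` on the tori.
-/

namespace Pool.Agent.TH826.UM

open MeasureTheory Set

open Pool.Agent.TH826.MK

open Pool.Agent.TH826.MH (good_w)

theorem nat_mul_half_pow_le (m : ℕ) : (m : ℝ) * (1 / 2) ^ m ≤ 1 / 2 := by
  induction m with
  | zero => norm_num
  | succ m ih =>
    rcases m with _ | m
    · norm_num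
    · have h1 : ((m + 1 + 1 : ℕ) : ℝ) * (1 / 2) ^ (m + 1 + 1) ≤
          ((m + 1 : ℕ) : ℝ) * (1 / 2) ^ (m + 1) := by
        rw [pow_succ (1 / 2 : ℝ) (m + 1)]
        have h2 : (0 : ℝ) < (1 / 2) ^ (m + 1) := by positivity
        have h3 : (0 : ℝ) ≤ m := Nat.cast_nonneg m
        push_cast
        nlinarith
      exact h1.trans ih

theorem succ_mul_half_pow_le (m : ℕ) : ((m : ℝ) + 1) * (1 / 2) ^ m ≤ 1 := by
  have h := nat_mul_half_pow_le (m + 1)
  rw [pow_succ] at h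
  push_cast at h
  linarith

variable {d m : ℕ} {s : Fin d → ℕ} {β : ∀ k : Fin d, Fin (s k + 1) → ℂ} {μ : ℂ}
  {β0 : Fin (m + 1) → ℂ} {G : Fin (m + 1) → ℂ → ℂ}

/-- the bound for `y - β_{0,j}` -/
noncomputable def ep (μ : ℂ) (s : Fin d → ℕ) (m : ℕ) : ℝ :=
  ‖μ‖⁻¹ * (∏ k, (1 / 2 : ℝ) ^ s k) * (1 / 2) ^ m

theorem ep_nonneg : 0 ≤ ep μ s m := by
  unfold ep
  have : 0 ≤ ∏ k, (1 / 2 : ℝ) ^ s k := Finset.prod_nonneg fun k _ => by positivity
  positivity

theorem ep_le (hμ : 2 ≤ ‖μ‖) : ep μ s m ≤ 1 / 2 := by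
  unfold ep
  have h1 : ‖μ‖⁻¹ ≤ 1 / 2 := by
    rw [one_div]
    exact inv_anti₀ (by norm_num) hμ
  have h0 : 0 ≤ ∏ k, (1 / 2 : ℝ) ^ s k := Finset.prod_nonneg fun k _ => by positivity
  have h2 : ∏ k, (1 / 2 : ℝ) ^ s k ≤ 1 :=
    Finset.prod_le_one (fun k _ => by positivity) fun k _ =>
      pow_le_one₀ (by norm_num) (by norm_num)
  have h3 : (1 / 2 : ℝ) ^ m ≤ 1 := pow_le_one₀ (by norm_num) (by norm_num)
  calc ‖μ‖⁻¹ * (∏ k, (1 / 2 : ℝ) ^ s k) * (1 / 2) ^ m ≤ 1 / 2 * 1 * 1 :=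
        mul_le_mul (mul_le_mul h1 h2 h0 (by norm_num)) h3 (by positivity) (by norm_num)
    _ = 1 / 2 := by ring

/-- the matrix of the regulators -/
noncomputable def RR (β0 : Fin (m + 1) → ℂ) (β : ∀ k : Fin d, Fin (s k + 1) → ℂ) (μ : ℂ)
    (G : Fin (m + 1) → ℂ → ℂ) (p q : Fin (m + 1) × (∀ k, Fin (s k + 1))) : ℝ :=
  -pairing (Fin.cons (fun θ => G q.1 (ww μ β q.2 θ) - β0 p.1)
    (vf fun k => ff β q.2 k (p.2 k)))

theorem nonsing (hd : 0 < d) (hβ0 : ∀ i j, i ≠ j → 3 ≤ ‖β0 i - β0 j‖)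
    (hβ : ∀ k i j, i ≠ j → 3 ≤ ‖β k i - β k j‖) (hμ : 2 ≤ ‖μ‖)
    (hG1 : ∀ l w, ‖w‖ ≤ 1 / 2 → AnalyticAt ℂ (G l) w)
    (hG2 : ∀ l w, ‖w‖ ≤ 1 / 2 → ∏ j, (G l w - β0 j) = w)
    (hG3 : ∀ j w, ‖w‖ ≤ 1 / 2 → ∏ l, (β0 j - G l w) = -w)
    (hG4 : ∀ l w, ‖w‖ ≤ 1 / 2 → ‖G l w - β0 l‖ ≤ ‖w‖ * (1 / 2) ^ m) :
    (Matrix.of (RR β0 β μ G)).det ≠ 0 := by
  classical
  have hpi := Real.pi_pos
  have hμ0 : μ ≠ 0 := by
    rw [← norm_pos_iff]
    linarith
  have hw := fun q θ => norm_ww_le_half hβ hμ q θ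
  have gw : ∀ q, Good (ww μ β q) := fun q => good_w (good_FF hβ q) hμ0
  have hYcd : ∀ l q, ContDiff ℝ 2 fun θ => G l (ww μ β q θ) := by
    intro l q
    rw [contDiff_iff_contDiffAt]
    intro θ
    exact ((hG1 l _ (hw q θ)).contDiffAt.restrict_scalars ℝ).comp θ
      (gw q).smooth.contDiffAt
  have hYne : ∀ l q j θ, G l (ww μ β q θ) - β0 j ≠ 0 := by
    intro l q j θ h
    have h1 := hG2 l _ (hw q θ)
    rw [Finset.prod_eq_zero (Finset.mem_univ j) h] at h1
    exact (gw q).ne_zero θ h1.symm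
  have gY : ∀ l q j, Good fun θ => G l (ww μ β q θ) - β0 j := fun l q j =>
    ⟨(hYcd l q).sub contDiff_const, hYne l q j⟩
  have gY' : ∀ l q j, Good fun θ => β0 j - G l (ww μ β q θ) := fun l q j =>
    ⟨contDiff_const.sub (hYcd l q), fun s h => hYne l q j s (by linear_combination -h)⟩
  have hV : ∀ (q p : ∀ k, Fin (s k + 1)) k, One (ff β q k (p k)) (if p k = q k then 1 else 0) :=
    fun q p k => one_ff hβ q k (p k)
  have gV : ∀ (q p : ∀ k, Fin (s k + 1)) k, Good (vf (fun k => ff β q k (p k)) k) :=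
    fun q p k => (hV q p k).good k
  -- the sign of a function does not matter
  have hneg : ∀ {f : (Fin d → ℝ) → ℂ} (q p : ∀ k, Fin (s k + 1)), Good f →
      pairing (Fin.cons (fun θ => -f θ) (vf fun k => ff β q k (p k))) =
        pairing (Fin.cons f (vf fun k => ff β q k (p k))) := by
    intro f q p hf
    have h1 := pairing_cons_mul (good_const (d := d) (c := -1) (by norm_num)) hf (gV q p)
    rw [pairing_const _ _ _ (hV q p)] at h1
    simp only [neg_mul, one_mul, norm_neg, norm_one, Real.log_one, mul_zero, zero_mul,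
      zero_add] at h1
    exact h1
  -- the sum rules
  have sum1 : ∀ (p0 : Fin (m + 1)) (p q : ∀ k, Fin (s k + 1)),
      ∑ q0, RR β0 β μ G (p0, p) (q0, q) =
        -pairing (Fin.cons (ww μ β q) (vf fun k => ff β q k (p k))) := by
    intro p0 p q
    unfold RR
    simp only
    rw [Finset.sum_neg_distrib]
    congr 1
    have h1 : ∀ q0, pairing (Fin.cons (fun θ => G q0 (ww μ β q θ) - β0 p0)
        (vf fun k => ff β q k (p k))) = pairing (Fin.cons (fun θ => β0 p0 - G q0 (ww μ β q θ))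
        (vf fun k => ff β q k (p k))) := by
      intro q0
      rw [← hneg q p (gY' q0 q p0)]
      congr 2
      funext θ
      ring
    simp only [h1]
    rw [← pairing_prod Finset.univ (fun q0 => gY' q0 q p0) (hV q p), ← hneg q p (gw q)]
    congr 2
    funext θ
    exact hG3 p0 _ (hw q θ)
  have sum2 : ∀ (q0 : Fin (m + 1)) (p q : ∀ k, Fin (s k + 1)),
      ∑ p0, RR β0 β μ G (p0, p) (q0, q) =
        -pairing (Fin.cons (ww μ β q) (vf fun k => ff β q k (p k))) := by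
    intro q0 p q
    unfold RR
    simp only
    rw [Finset.sum_neg_distrib]
    congr 1
    rw [← pairing_prod Finset.univ (fun p0 => gY q0 q p0) (hV q p)]
    congr 2
    funext θ
    exact hG2 q0 _ (hw q θ)
  -- the estimate
  set B : ℝ := (2 * Real.pi) ^ d * (ep μ s m / 2) with hB
  have hep := ep_le (s := s) (m := m) hμ
  have hep0 := ep_nonneg (μ := μ) (s := s) (m := m)
  have hB0 : 0 ≤ B := by positivity
  have hfar : ∀ (p0 q0 : Fin (m + 1)) (p q : ∀ k, Fin (s k + 1)), q0 ≠ p0 →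
      |RR β0 β μ G (p0, p) (q0, q) + (2 * Real.pi) ^ d * Real.log ‖β0 q0 - β0 p0‖ *
        ∏ k, (if p k = q k then (1 : ℝ) else 0)| ≤ B := by
    intro p0 q0 p q h
    have hd3 := hβ0 q0 p0 h
    set c : ℂ := β0 q0 - β0 p0 with hc
    have hc0 : c ≠ 0 := by
      rw [← norm_pos_iff]
      linarith
    set Z : (Fin d → ℝ) → ℂ := fun θ => (G q0 (ww μ β q θ) - β0 q0) / c with hZ
    have hZb : ∀ θ, ‖Z θ‖ ≤ ep μ s m / 3 := by
      intro θ
      simp only [hZ]
      rw [norm_div]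
      refine div_le_div₀ hep0 ?_ (by norm_num) hd3
      refine (hG4 q0 _ (hw q θ)).trans ?_
      unfold ep
      exact mul_le_mul_of_nonneg_right (norm_ww_le hβ hμ q θ) (by positivity)
    have hZ1 : ∀ θ, ‖Z θ‖ < 1 := fun θ => (hZb θ).trans_lt (by linarith)
    have hsl : ∀ θ, 1 + Z θ ∈ Complex.slitPlane := fun θ =>
      Complex.mem_slitPlane_of_norm_lt_one (hZ1 θ)
    have hZcd : ContDiff ℝ 2 fun θ => 1 + Z θ :=
      contDiff_const.add (((hYcd q0 q).sub contDiff_const).div_const c)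
    have gZ : Good fun θ => 1 + Z θ := ⟨hZcd, fun θ => Complex.slitPlane_ne_zero (hsl θ)⟩
    have hper : Per fun θ => 1 + Z θ := by
      intro θ i
      simp only [hZ]
      rw [per_ww hβ q θ i]
    have e1 : (fun θ => G q0 (ww μ β q θ) - β0 p0) = fun θ => c * (1 + Z θ) := by
      funext θ
      simp only [hZ]
      field_simp
      rw [hc]
      ring
    have h1 := abs_pairing_log_le hd hZcd hper hsl (hV q p) (A := ep μ s m / 2)
      (C := 2 * Real.pi) (fun θ => by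
        have h3 := Complex.norm_log_one_add_half_le_self (z := Z θ)
          ((hZb θ).trans (by linarith))
        calc _ ≤ 3 / 2 * ‖Z θ‖ := h3
          _ ≤ 3 / 2 * (ep μ s m / 3) := mul_le_mul_of_nonneg_left (hZb θ) (by norm_num)
          _ = ep μ s m / 2 := by ring) (fun k t => norm_ld_ff hβ q k (p k) t)
    have h2 : RR β0 β μ G (p0, p) (q0, q) + (2 * Real.pi) ^ d * Real.log ‖c‖ *
        ∏ k, (if p k = q k then (1 : ℝ) else 0) =
        -pairing (Fin.cons (fun θ => 1 + Z θ) (vf fun k => ff β q k (p k))) := by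
      unfold RR
      simp only
      rw [e1, pairing_cons_mul (good_const hc0) gZ (gV q p), pairing_const _ _ _ (hV q p)]
      ring
    rw [h2, abs_neg, hB]
    refine h1.trans (le_of_eq ?_)
    ring
  -- the numbers
  have hlog2 : (0.6931471803 : ℝ) < Real.log 2 := Real.log_two_gt_d9
  have hlogμ : Real.log 2 ≤ Real.log ‖μ‖ := Real.log_le_log (by norm_num) hμ
  have hN : (2 * m * (∏ k, ((s k : ℝ) + 1))) * ep μ s m ≤ 1 / 2 := by
    have h1 : ‖μ‖⁻¹ ≤ 1 / 2 := by
      rw [one_div]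
      exact inv_anti₀ (by norm_num) hμ
    have h2 := nat_mul_half_pow_le m
    have h3 : (∏ k, ((s k : ℝ) + 1)) * ∏ k, (1 / 2 : ℝ) ^ s k ≤ 1 := by
      rw [← Finset.prod_mul_distrib]
      exact Finset.prod_le_one (fun k _ => by positivity) fun k _ => succ_mul_half_pow_le (s k)
    have h4 : 0 ≤ (∏ k, ((s k : ℝ) + 1)) * ∏ k, (1 / 2 : ℝ) ^ s k := by
      rw [← Finset.prod_mul_distrib]
      exact Finset.prod_nonneg fun k _ => by positivity
    have e : (2 * m * (∏ k, ((s k : ℝ) + 1))) * ep μ s m =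
        2 * (‖μ‖⁻¹ * (m * (1 / 2) ^ m) *
          ((∏ k, ((s k : ℝ) + 1)) * ∏ k, (1 / 2 : ℝ) ^ s k)) := by
      unfold ep
      ring
    rw [e]
    have h5 : ‖μ‖⁻¹ * ((m : ℝ) * (1 / 2) ^ m) ≤ 1 / 2 * (1 / 2) :=
      mul_le_mul h1 h2 (by positivity) (by norm_num)
    have h6 : ‖μ‖⁻¹ * ((m : ℝ) * (1 / 2) ^ m) *
        ((∏ k, ((s k : ℝ) + 1)) * ∏ k, (1 / 2 : ℝ) ^ s k) ≤ 1 / 2 * (1 / 2) * 1 :=
      mul_le_mul h5 h3 h4 (by norm_num)
    linarith
  -- diagonal dominance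
  refine det_ne_zero_of_rows _
    (fun p q => if q.1 = p.1 then m * B else B) (κ := (2 * Real.pi) ^ d * Real.log ‖μ‖) ?_
    (fun p q => by split_ifs <;> positivity) ?_ ?_
  · rintro ⟨p0, p⟩
    rw [Fintype.sum_prod_type_right]
    simp only [sum1]
    exact sum_pairing_ww hβ hμ0 p
  · rintro ⟨p0, p⟩ ⟨q0, q⟩ hne
    simp only
    by_cases h : q0 = p0
    · rw [if_pos h]
      subst h
      have hpq : p ≠ q := fun e => hne (by rw [e])
      obtain ⟨k0, hk0⟩ : ∃ k, p k ≠ q k := by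
        by_contra h
        push Not at h
        exact hpq (funext h)
      have h1 := sum2 q0 p q
      have h2 := pairing_ww_nonpos hβ hμ0 hpq
      rw [← Finset.add_sum_erase _ _ (Finset.mem_univ q0)] at h1
      have h3 : ∑ _j ∈ Finset.univ.erase q0, -B ≤
          ∑ j ∈ Finset.univ.erase q0, RR β0 β μ G (j, p) (q0, q) := by
        refine Finset.sum_le_sum fun j hj => ?_
        have h4 := hfar j q0 p q (Finset.ne_of_mem_erase hj).symm
        rw [Finset.prod_eq_zero (Finset.mem_univ k0) (if_neg hk0), mul_zero, add_zero] at h4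
        exact (abs_le.1 h4).1
      rw [Finset.sum_const, Finset.card_erase_of_mem (Finset.mem_univ q0), Finset.card_univ,
        Fintype.card_fin, nsmul_eq_mul, Nat.add_sub_cancel] at h3
      linarith
    · rw [if_neg h]
      have h1 := (abs_le.1 (hfar p0 q0 p q h)).2
      have h2 : 0 ≤ (2 * Real.pi) ^ d * Real.log ‖β0 q0 - β0 p0‖ *
          ∏ k, (if p k = q k then (1 : ℝ) else 0) := by
        have h3 : 0 ≤ Real.log ‖β0 q0 - β0 p0‖ := Real.log_nonneg (by linarith [hβ0 q0 p0 h])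
        have h4 : 0 ≤ ∏ k, (if p k = q k then (1 : ℝ) else 0) :=
          Finset.prod_nonneg fun l _ => by split_ifs <;> norm_num
        positivity
      linarith
  · rintro ⟨p0, p⟩
    rw [Fintype.sum_prod_type_right]
    simp only
    have h1 : ∑ q0 : Fin (m + 1), (if q0 = p0 then (m : ℝ) * B else B) = 2 * m * B := by
      rw [← Finset.add_sum_erase _ _ (Finset.mem_univ p0), if_pos rfl]
      have h2 : ∑ q0 ∈ Finset.univ.erase p0, (if q0 = p0 then (m : ℝ) * B else B) =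
          ∑ _q0 ∈ Finset.univ.erase p0, B :=
        Finset.sum_congr rfl fun j hj => if_neg (Finset.ne_of_mem_erase hj)
      rw [h2, Finset.sum_const, Finset.card_erase_of_mem (Finset.mem_univ p0), Finset.card_univ,
        Fintype.card_fin, nsmul_eq_mul, Nat.add_sub_cancel]
      ring
    simp only [h1]
    rw [Finset.sum_const, Finset.card_univ, Fintype.card_pi, nsmul_eq_mul]
    simp only [Fintype.card_fin]
    push_cast
    have h5 : 2 * ((∏ k, ((s k : ℝ) + 1)) * (2 * m * B)) =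
        (2 * Real.pi) ^ d * ((2 * m * (∏ k, ((s k : ℝ) + 1))) * ep μ s m) := by
      rw [hB]
      ring
    rw [h5]
    refine mul_lt_mul_of_pos_left ?_ (by positivity)
    linarith

end Pool.Agent.TH826.UM
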