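import Pool.Agent.TH826.UB.Mat
import Pool.Agent.TH826.MK.Torus
set_option autoImplicit false

/-!
Linear algebra: selecting columns of a matrix, diagonal dominance, multilinear expansion of the
regulator integrals.
-/

namespace Pool.Agent.TH826.UM

open Matrix

open Pool.Agent.TH826.UB (dd sum_dd sum_dd_le exists_submatrix)

open Pool.Agent.TH826.MK (Torus)

section grid

variable {n : ℕ} {r : Fin n → ℕ}

theorem sum_prod_pi (f : ∀ k, Fin (r k + 1) → ℝ) :
    ∑ p : (∀ k, Fin (r k + 1)), ∏ k, f k (p k) = ∏ k, ∑ x, f k x := by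
  have h2 := Finset.prod_univ_sum (fun k => (Finset.univ : Finset (Fin (r k + 1)))) f
  rw [Fintype.piFinset_univ] at h2
  exact h2.symm

/-- A matrix with rows and columns indexed by the grid: if it is nonsingular, then for a suitable
choice of columns the matrix of the mixed differences of the rows is nonsingular. -/
theorem exists_columns (R : Matrix (∀ k, Fin (r k + 1)) (∀ k, Fin (r k + 1)) ℝ)
    (hR : R.det ≠ 0) :
    ∃ e : (∀ k, Fin (r k)) → (∀ k, Fin (r k + 1)),
      (Matrix.of fun t i : (∀ k, Fin (r k)) =>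
        ∑ p, (∏ k, dd (i k) (p k)) * R p (e t)).det ≠ 0 := by
  classical
  set D : Matrix (∀ k, Fin (r k)) (∀ k, Fin (r k + 1)) ℝ :=
    fun i p => ∏ k, dd (i k) (p k) with hD
  set T : Matrix (∀ k, Fin (r k + 1)) (∀ k, Fin (r k)) ℝ :=
    fun p i => ∏ k, (if (p k : ℕ) ≤ i k then 1 else 0) with hT
  have hDT : D * T = 1 := by
    ext i j
    rw [Matrix.mul_apply]
    have h1 : ∀ p, D i p * T p j =
        ∏ k, (dd (i k) (p k) * (if (p k : ℕ) ≤ j k then 1 else 0)) := by
      intro p
      simp only [hD, hT]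
      rw [Finset.prod_mul_distrib]
    simp only [h1]
    rw [sum_prod_pi (fun k x => dd (i k) x * (if (x : ℕ) ≤ j k then (1 : ℝ) else 0))]
    simp only [sum_dd_le]
    by_cases hij : i = j
    · subst hij
      simp
    · rw [Matrix.one_apply_ne hij]
      obtain ⟨k, hk⟩ : ∃ k, i k ≠ j k := by
        by_contra h
        push Not at h
        exact hij (funext h)
      exact Finset.prod_eq_zero (Finset.mem_univ k) (if_neg hk)
  have hunit : IsUnit R.det := isUnit_iff_ne_zero.2 hR
  obtain ⟨e, he⟩ := exists_submatrix (D * R) (R⁻¹ * T) (by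
    rw [Matrix.mul_assoc, ← Matrix.mul_assoc R, Matrix.mul_nonsing_inv _ hunit,
      Matrix.one_mul, hDT, Matrix.det_one]
    exact one_ne_zero)
  refine ⟨e, ?_⟩
  rw [← Matrix.det_transpose] at he
  exact he

end grid

/-- Diagonal dominance: constant positive row sums, and small positive parts of the off-diagonal
entries. -/
theorem det_ne_zero_of_rows {ι : Type*} [Fintype ι] [DecidableEq ι] (R b : ι → ι → ℝ) {κ : ℝ}
    (hrow : ∀ p, ∑ q, R p q = κ) (hb0 : ∀ p q, 0 ≤ b p q)
    (hb : ∀ p q, p ≠ q → R p q ≤ b p q) (hsum : ∀ p, 2 * ∑ q, b p q < κ) :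
    (Matrix.of R).det ≠ 0 := by
  refine det_ne_zero_of_sum_row_lt_diag fun p => ?_
  simp only [Matrix.of_apply, Real.norm_eq_abs]
  have h1 : ∀ q ∈ Finset.univ.erase p, |R p q| ≤ -R p q + 2 * b p q := by
    intro q hq
    have h2 := hb p q (Finset.ne_of_mem_erase hq).symm
    have h3 := hb0 p q
    rcases le_total (R p q) 0 with h6 | h6
    · rw [abs_of_nonpos h6]
      linarith
    · rw [abs_of_nonneg h6]
      linarith
  have hsum' : ∑ q ∈ Finset.univ.erase p, R p q = κ - R p p := by
    rw [← hrow p, ← Finset.add_sum_erase _ _ (Finset.mem_univ p)]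
    ring
  have hb' : ∑ q ∈ Finset.univ.erase p, b p q ≤ ∑ q, b p q :=
    Finset.sum_le_sum_of_subset_of_nonneg (Finset.erase_subset _ _) fun q _ _ => hb0 p q
  have h4 := hsum p
  calc ∑ q ∈ Finset.univ.erase p, |R p q| ≤ ∑ q ∈ Finset.univ.erase p, (-R p q + 2 * b p q) :=
        Finset.sum_le_sum h1
    _ = -(κ - R p p) + 2 * ∑ q ∈ Finset.univ.erase p, b p q := by
        rw [Finset.sum_add_distrib, Finset.sum_neg_distrib, hsum', ← Finset.mul_sum]
    _ < R p p := by linarith
    _ ≤ |R p p| := le_abs_self _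

section expand

variable {A : Type*} [CommRing A] {d : ℕ}

/-- the regulator integral as a multilinear map -/
noncomputable def mlin (Γ : Torus A d) :
    MultilinearMap ℤ (fun _ : Fin (d + 1) => Additive Aˣ) ℝ :=
  have hadd : ∀ (m : Fin (d + 1) → Additive Aˣ) (l : Fin (d + 1)) (x y : Additive Aˣ),
      Γ.pair (fun k => (Function.update m l (x + y) k).toMul) =
        Γ.pair (fun k => (Function.update m l x k).toMul) +
        Γ.pair (fun k => (Function.update m l y k).toMul) := by
    intro m l x y
    have h := Γ.pair_update_mul (fun k => (m k).toMul) l x.toMul y.toMul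
    have e : ∀ z : Additive Aˣ, (fun k => (Function.update m l z k).toMul) =
        Function.update (fun k => (m k).toMul) l z.toMul := by
      intro z
      funext k
      by_cases hk : k = l
      · subst hk
        rw [Function.update_self, Function.update_self]
      · rw [Function.update_of_ne hk, Function.update_of_ne hk]
    rw [e, e, e, toMul_add]
    exact h
  MultilinearMap.mk' (fun a => Γ.pair fun k => (a k).toMul) hadd (by
    intro m l c x
    exact (AddMonoidHom.mk' (fun x => Γ.pair fun k => (Function.update m l x k).toMul)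
      (hadd m l)).map_zsmul c x)

theorem mlin_apply (Γ : Torus A d) (a : Fin (d + 1) → Additive Aˣ) :
    mlin Γ a = Γ.pair fun k => (a k).toMul := rfl

/-- the integral difference -/
def ddZ {m : ℕ} (i : Fin m) (k : Fin (m + 1)) : ℤ :=
  (if k = i.castSucc then 1 else 0) - if k = i.succ then 1 else 0

theorem cast_ddZ {m : ℕ} (i : Fin m) (k : Fin (m + 1)) : ((ddZ i k : ℤ) : ℝ) = dd i k := by
  unfold ddZ dd
  push_cast
  rfl

/-- multilinear expansion -/
theorem pair_expand (Γ : Torus A d) {r : Fin (d + 1) → ℕ} (u : ∀ k, Fin (r k + 1) → Aˣ)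
    (i : ∀ k, Fin (r k)) :
    Γ.pair (fun k => u k (i k).castSucc / u k (i k).succ) =
      ∑ p : (∀ k, Fin (r k + 1)), (∏ k, dd (i k) (p k)) * Γ.pair (fun k => u k (p k)) := by
  have h1 : ∀ k, Additive.ofMul (u k (i k).castSucc / u k (i k).succ) =
      ∑ p, ddZ (i k) p • Additive.ofMul (u k p) := by
    intro k
    simp [ddZ, sub_smul, Finset.sum_sub_distrib]
  have h2 : Γ.pair (fun k => u k (i k).castSucc / u k (i k).succ) =
      mlin Γ fun k => ∑ p, ddZ (i k) p • Additive.ofMul (u k p) := by
    rw [mlin_apply]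
    simp only [← h1, toMul_ofMul]
  rw [h2, MultilinearMap.map_sum]
  refine Finset.sum_congr rfl fun p _ => ?_
  rw [MultilinearMap.map_smul_univ, mlin_apply]
  simp only [toMul_ofMul, zsmul_eq_mul, Int.cast_prod, cast_ddZ]

end expand

end Pool.Agent.TH826.UM
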