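import Pool.Agent.TH826.UM.Final
import Pool.Agent.TH826.UB.Crit
set_option autoImplicit false

/-!
Change of scale on the hypersurface `λ ∏_k ∏_i (x_k - a_{k,i}) = 1`.
-/

namespace Pool.Agent.TH826.UM

open Pool.Agent.TH826.MK (Torus symb)

open Pool.Agent.TH826.MH (CRing fpol ent ux fx eqn prod_eq_one coe_ux)

section comap

variable {A B : Type*} [CommRing A] [CommRing B] {d : ℕ}

/-- the image of a torus under a morphism -/
noncomputable def comap (φ : A →+* B) (Γ : Torus B d) : Torus A d where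
  e θ := (Γ.e θ).comp φ
  smooth h := Γ.smooth (φ h)
  periodic θ i := by rw [Γ.periodic]

theorem comap_reg (φ : A →+* B) (Γ : Torus B d) (u : Fin (d + 1) → Aˣ) :
    (comap φ Γ).reg (symb u) = Γ.reg (symb fun k => Units.map (φ : A →* B) (u k)) := by
  rw [Torus.reg_symb, Torus.reg_symb]
  rfl

end comap

section scale

variable {K : Type*} [Field K] {σ : K →+* ℂ} {lam : K} {n : ℕ} {r : Fin n → ℕ}
  {a : ∀ k, Fin (r k + 1) → K} {δ : Fin n → ℂ}

/-- the scaled roots -/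
noncomputable def sa (σ : K →+* ℂ) (a : ∀ k, Fin (r k + 1) → K) (δ : Fin n → ℂ) (k : Fin n)
    (i : Fin (r k + 1)) : ℂ := σ (a k i) / δ k

/-- the scaled coefficient -/
noncomputable def sl (σ : K →+* ℂ) (lam : K) (r : Fin n → ℕ) (δ : Fin n → ℂ) : ℂ :=
  σ lam * ∏ k, δ k ^ (r k + 1)

/-- the map on polynomials -/
noncomputable def phi0 (σ : K →+* ℂ) (lam : K) (a : ∀ k, Fin (r k + 1) → K)
    (δ : Fin n → ℂ) : MvPolynomial (Fin n) K →+* CRing (sl σ lam r δ) (sa σ a δ) :=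
  MvPolynomial.eval₂Hom ((fpol _ _).comp (MvPolynomial.C.comp σ))
    (fun k => fpol _ _ (MvPolynomial.C (δ k) * MvPolynomial.X k))

theorem phi0_C (x : K) : phi0 σ lam a δ (MvPolynomial.C x) =
    fpol _ _ (MvPolynomial.C (σ x)) := by
  unfold phi0
  simp

theorem phi0_lin (hδ : ∀ k, δ k ≠ 0) (k : Fin n) (c : K) :
    phi0 σ lam a δ (MvPolynomial.X k - MvPolynomial.C c) =
      fpol _ _ (MvPolynomial.C (δ k)) * fx (sl σ lam r δ) (sa σ a δ) k (σ c / δ k) := by
  rw [map_sub, phi0_C]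
  unfold phi0 fx
  rw [MvPolynomial.coe_eval₂Hom, MvPolynomial.eval₂_X, ← map_sub, ← map_mul]
  congr 1
  have h : (MvPolynomial.C (σ c) : MvPolynomial (Fin n) ℂ) =
      MvPolynomial.C (δ k) * MvPolynomial.C (σ c / δ k) := by
    rw [← map_mul, mul_div_cancel₀ _ (hδ k)]
  rw [h]
  ring

theorem phi0_eqn (hδ : ∀ k, δ k ≠ 0) : phi0 σ lam a δ (eqn lam a) = 0 := by
  unfold eqn
  rw [map_sub, map_mul, map_one, map_prod, phi0_C]
  simp only [map_prod, phi0_lin hδ, Finset.prod_mul_distrib]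
  have h := prod_eq_one (sl σ lam r δ) (sa σ a δ)
  have h1 : fpol (sl σ lam r δ) (sa σ a δ) (MvPolynomial.C (sl σ lam r δ)) =
      fpol _ _ (MvPolynomial.C (σ lam)) *
        ∏ k, ∏ _i : Fin (r k + 1), fpol (sl σ lam r δ) (sa σ a δ) (MvPolynomial.C (δ k)) := by
    have hsl : (MvPolynomial.C (sl σ lam r δ) : MvPolynomial (Fin n) ℂ) =
        MvPolynomial.C (σ lam) * ∏ k, MvPolynomial.C (δ k) ^ (r k + 1) := by
      unfold sl
      rw [map_mul, map_prod]
      simp only [map_pow]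
    rw [hsl, map_mul, map_prod]
    congr 1
    refine Finset.prod_congr rfl fun k _ => ?_
    rw [map_pow, Finset.prod_const, Finset.card_univ, Fintype.card_fin]
  rw [h1] at h
  rw [← mul_assoc, sub_eq_zero]
  exact h

/-- the change of coordinates -/
noncomputable def phi (lam : K) (a : ∀ k, Fin (r k + 1) → K) (hδ : ∀ k, δ k ≠ 0) :
    CRing lam a →+* CRing (sl σ lam r δ) (sa σ a δ) :=
  Ideal.Quotient.lift (Ideal.span {eqn lam a}) (phi0 σ lam a δ) (by
    intro p hp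
    obtain ⟨q, rfl⟩ := Ideal.mem_span_singleton.1 hp
    rw [map_mul, phi0_eqn hδ, zero_mul])

theorem phi_fpol (hδ : ∀ k, δ k ≠ 0) (p : MvPolynomial (Fin n) K) :
    phi (σ := σ) lam a hδ (fpol lam a p) = phi0 σ lam a δ p :=
  Ideal.Quotient.lift_mk _ _ _

/-- the unit `δ_k` -/
noncomputable def cu (lam' : ℂ) (a' : ∀ k, Fin (r k + 1) → ℂ) (c : ℂ) (hc : c ≠ 0) :
    (CRing lam' a')ˣ :=
  Units.map ((fpol lam' a').comp MvPolynomial.C : ℂ →* CRing lam' a') (Units.mk0 c hc)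

theorem phi_ux (hδ : ∀ k, δ k ≠ 0) (k : Fin n) (i : Fin (r k + 1)) :
    Units.map (phi (σ := σ) lam a hδ : CRing lam a →* _) (ux lam a k i) =
      cu (sl σ lam r δ) (sa σ a δ) (δ k) (hδ k) * ux _ _ k i := by
  ext
  rw [Units.coe_map, Units.val_mul, coe_ux, coe_ux]
  exact (phi_fpol hδ _).trans (phi0_lin hδ k (a k i))

theorem phi_ent (hδ : ∀ k, δ k ≠ 0) (i : ∀ k, Fin (r k)) (k : Fin n) :
    Units.map (phi (σ := σ) lam a hδ : CRing lam a →* _) (ent lam a i k) =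
      ent (sl σ lam r δ) (sa σ a δ) i k := by
  have h1 : ent lam a i k = ux lam a k (i k).castSucc / ux lam a k (i k).succ := rfl
  have h2 : ent (sl σ lam r δ) (sa σ a δ) i k =
    ux _ _ k (i k).castSucc / ux _ _ k (i k).succ := rfl
  rw [h1, h2, map_div, phi_ux, phi_ux, mul_div_mul_left_eq_div]

end scale

/-- tori on the hypersurface, with explicit constants -/
theorem exists_tori_scaled {K : Type*} [Field K] {σ : K →+* ℂ} {lam : K} {d : ℕ} (hd : 0 < d)
    {r : Fin (d + 1) → ℕ} {a : ∀ k, Fin (r k + 1) → K} {δ : Fin (d + 1) → ℝ}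
    (hδ : ∀ k, 0 < δ k) (hsep : ∀ k i j, i ≠ j → 3 * δ k ≤ ‖σ (a k i) - σ (a k j)‖)
    (hlam : 2 ≤ ‖σ lam‖ * ∏ k, δ k ^ (r k + 1)) :
    ∃ Γ : (∀ k, Fin (r k)) → Torus (CRing lam a) d,
      (∀ t θ (x : K), (Γ t).e θ (fpol lam a (MvPolynomial.C x)) = σ x) ∧
      (Matrix.of fun t i : (∀ k, Fin (r k)) => (Γ t).reg (symb (ent lam a i))).det ≠ 0 := by
  set ε : Fin (d + 1) → ℂ := fun k => (δ k : ℂ) with hε
  have hε0 : ∀ k, ε k ≠ 0 := fun k => Complex.ofReal_ne_zero.2 (hδ k).ne'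
  have hεn : ∀ k, ‖ε k‖ = δ k := fun k => by
    simp only [hε]
    rw [Complex.norm_real, Real.norm_of_nonneg (hδ k).le]
  obtain ⟨Γ, h1, h2⟩ := exists_tori (K := ℂ) (σ := RingHom.id ℂ) (lam := sl σ lam r ε) hd
    (a := sa σ a ε) (fun k i j hij => by
      unfold sa
      rw [RingHom.id_apply, RingHom.id_apply, ← sub_div, norm_div, hεn, le_div_iff₀ (hδ k)]
      exact hsep k i j hij) (by
      unfold sl
      rw [RingHom.id_apply, norm_mul, norm_prod]
      simp only [norm_pow, hεn]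
      exact hlam)
  refine ⟨fun t => comap (phi lam a hε0) (Γ t), fun t θ x => ?_, ?_⟩
  · show (Γ t).e θ (phi lam a hε0 (fpol lam a (MvPolynomial.C x))) = σ x
    rw [phi_fpol, phi0_C, h1]
    rfl
  · have hM : (Matrix.of fun t i : (∀ k, Fin (r k)) =>
        (comap (phi lam a hε0) (Γ t)).reg (symb (ent lam a i))) =
        Matrix.of fun t i : (∀ k, Fin (r k)) => (Γ t).reg (symb (ent _ _ i)) := by
      ext t i
      rw [Matrix.of_apply, Matrix.of_apply, comap_reg]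
      simp only [phi_ent]
    rw [hM]
    exact h2

section crit

open Polynomial

open Pool.Agent.TH826.MH

theorem eval_qq {m : ℕ} (β : Fin (m + 1) → ℂ) (c : ℂ) : (qq β).eval c = ∏ i, (c - β i) := by
  unfold qq
  rw [eval_prod]
  simp

theorem deriv_qq {m : ℕ} (β : Fin (m + 1) → ℂ) (c : ℂ) :
    (derivative (qq β)).eval c = ∑ i, ∏ j ∈ Finset.univ.erase i, (c - β j) := by
  classical
  unfold qq
  rw [derivative_prod_finset, eval_finsetSum]
  refine Finset.sum_congr rfl fun i _ => ?_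
  rw [eval_mul, eval_prod]
  simp

/-- If the mutual distances of the roots are at least `2 δ`, then the polynomial has absolute value
at least `δ ^ deg` at its critical points. -/
theorem le_crit {m : ℕ} (β : Fin (m + 1) → ℂ) {δ : ℝ} (hδ : 0 < δ)
    (hβ : ∀ i j, i ≠ j → 2 * δ ≤ ‖β i - β j‖) (c : ℂ)
    (hc : (derivative (qq β)).eval c = 0) : δ ^ (m + 1) ≤ ‖(qq β).eval c‖ := by
  classical
  have hδc : (δ : ℂ) ≠ 0 := Complex.ofReal_ne_zero.2 hδ.ne'
  have hn : ‖(δ : ℂ)‖ = δ := by rw [Complex.norm_real, Real.norm_of_nonneg hδ.le]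
  have h := UB.one_le_crit (fun i => β i / δ) (fun i j hij => by
    rw [← sub_div, norm_div, hn, le_div_iff₀ hδ]
    exact hβ i j hij) (c / δ) (by
    rw [deriv_qq]
    rw [deriv_qq] at hc
    have e : ∀ i, ∏ j ∈ Finset.univ.erase i, (c / (δ : ℂ) - β j / δ) =
        (∏ j ∈ Finset.univ.erase i, (c - β j)) * ((δ : ℂ) ^ m)⁻¹ := by
      intro i
      have e1 : ∀ j, c / (δ : ℂ) - β j / δ = (c - β j) * (δ : ℂ)⁻¹ := by
        intro j
        rw [← sub_div, div_eq_mul_inv]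
      simp only [e1]
      rw [Finset.prod_mul_distrib, Finset.prod_const,
        Finset.card_erase_of_mem (Finset.mem_univ i), Finset.card_univ, Fintype.card_fin,
        Nat.add_sub_cancel, inv_pow]
    simp only [e]
    rw [← Finset.sum_mul, hc, zero_mul])
  rw [eval_qq] at h ⊢
  have e : ∏ i, (c / (δ : ℂ) - β i / δ) = (∏ i, (c - β i)) * ((δ : ℂ) ^ (m + 1))⁻¹ := by
    have e1 : ∀ j, c / (δ : ℂ) - β j / δ = (c - β j) * (δ : ℂ)⁻¹ := by
      intro j
      rw [← sub_div, div_eq_mul_inv]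
    simp only [e1]
    rw [Finset.prod_mul_distrib, Finset.prod_const, Finset.card_univ, Fintype.card_fin, inv_pow]
  rw [e, norm_mul, norm_inv, norm_pow, hn, ← div_eq_mul_inv, le_div_iff₀ (by positivity),
    one_mul] at h
  exact h

variable {K : Type*} [Field K] {n : ℕ} {r : Fin n → ℕ}

/-- smoothness -/
theorem smooth (hn : 0 < n) (σ : K →+* ℂ) (a : ∀ k, Fin (r k + 1) → K) {δ : Fin n → ℝ}
    (hδ : ∀ k, 0 < δ k) (ha : ∀ k i j, i ≠ j → 2 * δ k ≤ ‖σ (a k i) - σ (a k j)‖) {lam : K}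
    (hlam : 1 < ‖σ lam‖ * ∏ k, δ k ^ (r k + 1))
    (x : Fin n → ℂ) (hx : MvPolynomial.eval₂ σ x (eqn lam a) = 0) :
    ∃ k, MvPolynomial.eval₂ σ x (MvPolynomial.pderiv k (eqn lam a)) ≠ 0 := by
  have hmap : ∀ k, (qq (a k)).map σ = qq fun i => σ (a k i) := by
    intro k
    unfold qq
    rw [Polynomial.map_prod]
    refine Finset.prod_congr rfl fun i _ => ?_
    rw [Polynomial.map_sub, map_X, map_C]
  have h1 : σ lam * ∏ k, (qq (a k)).eval₂ σ (x k) = 1 := by
    rw [eqn_eq lam a ⟨0, hn⟩, MvPolynomial.eval₂_sub, MvPolynomial.eval₂_mul,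
      MvPolynomial.eval₂_mul, MvPolynomial.eval₂_C, MvPolynomial.eval₂_one, eval_aeval,
      MvPolynomial.eval₂_prod] at hx
    rw [← Finset.mul_prod_erase _ _ (Finset.mem_univ (⟨0, hn⟩ : Fin n))]
    simp only [eval_aeval] at hx
    linear_combination hx
  by_contra hcon
  push Not at hcon
  have hcrit : ∀ k, (derivative (qq (a k))).eval₂ σ (x k) = 0 := by
    intro k
    have h2 := hcon k
    rw [pderiv_eqn, MvPolynomial.eval₂_mul, MvPolynomial.eval₂_mul, MvPolynomial.eval₂_C,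
      eval_aeval, MvPolynomial.eval₂_prod] at h2
    simp only [eval_aeval] at h2
    have h3 : σ lam ≠ 0 ∧ ∏ k, (qq (a k)).eval₂ σ (x k) ≠ 0 := by
      rw [← mul_ne_zero_iff, h1]
      exact one_ne_zero
    have h4 : ∏ l ∈ Finset.univ.erase k, (qq (a l)).eval₂ σ (x l) ≠ 0 :=
      Finset.prod_ne_zero_iff.2 fun l _ => (Finset.prod_ne_zero_iff.1 h3.2) l (Finset.mem_univ l)
    rcases mul_eq_zero.1 h2 with h5 | h5
    · exact absurd h5 h3.1
    · rcases mul_eq_zero.1 h5 with h6 | h6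
      · exact h6
      · exact absurd h6 h4
  have hge : ∀ k, δ k ^ (r k + 1) ≤ ‖(qq (a k)).eval₂ σ (x k)‖ := by
    intro k
    rw [← eval_map, hmap]
    refine le_crit _ (hδ k) (ha k) (x k) ?_
    rw [← hmap, derivative_map, eval_map]
    exact hcrit k
  have h5 : ∏ k, δ k ^ (r k + 1) ≤ ‖∏ k, (qq (a k)).eval₂ σ (x k)‖ := by
    rw [norm_prod]
    exact Finset.prod_le_prod (fun k _ => pow_nonneg (hδ k).le _) fun k _ => hge k
  have h6 := congrArg norm h1
  rw [norm_mul, norm_one] at h6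
  have h7 := mul_le_mul_of_nonneg_left h5 (norm_nonneg (σ lam))
  linarith

end crit

end Pool.Agent.TH826.UM
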