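import Pool.Agent.TH826.UM.Exp
import Pool.Agent.TH826.UM.Mat
import Pool.Agent.TH826.MH.Bd
set_option autoImplicit false

/-!
The functions `x_k - β_{k,i}` on the torus around `(β_{k,q_k})_k` and the regulators of
`{w, x_1 - β_{1,p_1}, ..., x_d - β_{d,p_d}}`.
-/

namespace Pool.Agent.TH826.UM

open MeasureTheory Set

open Pool.Agent.TH826.MK

open Pool.Agent.TH826.MH (good_w pairing_w)

variable {d : ℕ} {s : Fin d → ℕ} {β : ∀ k : Fin d, Fin (s k + 1) → ℂ} {μ : ℂ}

/-- `x_k - β_{k,i}` on the circle around `β_{k,q_k}` -/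
noncomputable def ff (β : ∀ k : Fin d, Fin (s k + 1) → ℂ) (q : ∀ k, Fin (s k + 1)) (k : Fin d)
    (i : Fin (s k + 1)) (t : ℝ) : ℂ := circ 1 t - (β k i - β k (q k))

theorem norm_ff_self (q : ∀ k, Fin (s k + 1)) (k : Fin d) (t : ℝ) : ‖ff β q k (q k) t‖ = 1 := by
  unfold ff
  rw [sub_self, sub_zero, norm_circ (by norm_num)]

theorem norm_ff_ge (hβ : ∀ k i j, i ≠ j → 3 ≤ ‖β k i - β k j‖) {q : ∀ k, Fin (s k + 1)}
    {k : Fin d} {i : Fin (s k + 1)} (h : i ≠ q k) (t : ℝ) : 2 ≤ ‖ff β q k i t‖ := by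
  have h1 := hβ k i (q k) h
  have h2 : ‖β k i - β k (q k)‖ ≤ ‖circ 1 t‖ + ‖ff β q k i t‖ := by
    have : β k i - β k (q k) = circ 1 t - ff β q k i t := by
      unfold ff
      ring
    rw [this]
    exact norm_sub_le _ _
  rw [norm_circ (by norm_num)] at h2
  linarith

theorem one_le_norm_ff (hβ : ∀ k i j, i ≠ j → 3 ≤ ‖β k i - β k j‖) (q : ∀ k, Fin (s k + 1))
    (k : Fin d) (i : Fin (s k + 1)) (t : ℝ) : 1 ≤ ‖ff β q k i t‖ := by
  by_cases h : i = q k
  · rw [h, norm_ff_self]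
  · linarith [norm_ff_ge hβ h t]

theorem norm_ne_one (hβ : ∀ k i j, i ≠ j → 3 ≤ ‖β k i - β k j‖) (q : ∀ k, Fin (s k + 1))
    (k : Fin d) (i : Fin (s k + 1)) : ‖β k i - β k (q k)‖ ≠ 1 := by
  by_cases h : i = q k
  · rw [h, sub_self, norm_zero]
    norm_num
  · have := hβ k i (q k) h
    intro h2
    rw [h2] at this
    norm_num at this

theorem wd_ff (hβ : ∀ k i j, i ≠ j → 3 ≤ ‖β k i - β k j‖) (q : ∀ k, Fin (s k + 1))
    (k : Fin d) (i : Fin (s k + 1)) :
    wd 1 (β k i - β k (q k)) = if i = q k then 1 else 0 := by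
  unfold wd
  by_cases h : i = q k
  · rw [if_pos h, if_pos]
    rw [h, sub_self, norm_zero]
    norm_num
  · rw [if_neg h, if_neg]
    have := hβ k i (q k) h
    rw [not_lt]
    linarith

theorem one_ff (hβ : ∀ k i j, i ≠ j → 3 ≤ ‖β k i - β k j‖) (q : ∀ k, Fin (s k + 1))
    (k : Fin d) (i : Fin (s k + 1)) : One (ff β q k i) (if i = q k then 1 else 0) := by
  rw [← wd_ff hβ q k i]
  exact one_lin one_pos (norm_ne_one hβ q k i)

theorem norm_ld_ff (hβ : ∀ k i j, i ≠ j → 3 ≤ ‖β k i - β k j‖) (q : ∀ k, Fin (s k + 1))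
    (k : Fin d) (i : Fin (s k + 1)) (t : ℝ) :
    ‖deriv (ff β q k i) t / ff β q k i t‖ ≤ 2 * Real.pi := by
  have h1 : deriv (ff β q k i) t = 2 * Real.pi * Complex.I * circ 1 t := deriv_circ_sub _ _ _
  rw [h1, norm_div, norm_mul, norm_circ (by norm_num)]
  have e : ‖2 * (Real.pi : ℂ) * Complex.I‖ = 2 * Real.pi := by
    rw [norm_mul, norm_mul, Complex.norm_I, Complex.norm_real, Complex.norm_ofNat, mul_one,
      Real.norm_eq_abs, abs_of_pos Real.pi_pos]
  have h2 := one_le_norm_ff hβ q k i t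
  rw [e, div_le_iff₀ (by linarith)]
  nlinarith [Real.pi_pos]

/-- the product of the factors over the circles -/
noncomputable def FF (β : ∀ k : Fin d, Fin (s k + 1) → ℂ) (q : ∀ k, Fin (s k + 1))
    (θ : Fin d → ℝ) : ℂ := ∏ k, ∏ i, ff β q k i (θ k)

theorem good_FF (hβ : ∀ k i j, i ≠ j → 3 ≤ ‖β k i - β k j‖) (q : ∀ k, Fin (s k + 1)) :
    Good (FF β q) :=
  good_prod Finset.univ fun k => good_prod Finset.univ fun i => (one_ff hβ q k i).good k

theorem norm_FF_ge (hβ : ∀ k i j, i ≠ j → 3 ≤ ‖β k i - β k j‖) (q : ∀ k, Fin (s k + 1))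
    (θ : Fin d → ℝ) : ∏ k, (2 : ℝ) ^ s k ≤ ‖FF β q θ‖ := by
  classical
  unfold FF
  rw [norm_prod]
  refine Finset.prod_le_prod (fun k _ => by positivity) fun k _ => ?_
  rw [norm_prod, ← Finset.mul_prod_erase _ _ (Finset.mem_univ (q k)), norm_ff_self, one_mul]
  calc (2 : ℝ) ^ s k = ∏ _i ∈ Finset.univ.erase (q k), (2 : ℝ) := by
        rw [Finset.prod_const, Finset.card_erase_of_mem (Finset.mem_univ _), Finset.card_univ,
          Fintype.card_fin, Nat.add_sub_cancel]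
    _ ≤ _ := Finset.prod_le_prod (fun _ _ => by norm_num) fun i hi =>
        norm_ff_ge hβ (Finset.ne_of_mem_erase hi) (θ k)

/-- the value of `∏ (y - β_{0,j})` -/
noncomputable def ww (μ : ℂ) (β : ∀ k : Fin d, Fin (s k + 1) → ℂ) (q : ∀ k, Fin (s k + 1))
    (θ : Fin d → ℝ) : ℂ := (μ * FF β q θ)⁻¹

theorem norm_ww_le (hβ : ∀ k i j, i ≠ j → 3 ≤ ‖β k i - β k j‖) (hμ : 2 ≤ ‖μ‖)
    (q : ∀ k, Fin (s k + 1)) (θ : Fin d → ℝ) :
    ‖ww μ β q θ‖ ≤ ‖μ‖⁻¹ * ∏ k, (1 / 2 : ℝ) ^ s k := by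
  have h1 := norm_FF_ge hβ q θ
  have h0 : 0 < ∏ k, (2 : ℝ) ^ s k := Finset.prod_pos fun k _ => by positivity
  unfold ww
  rw [norm_inv, norm_mul, mul_inv]
  refine mul_le_mul_of_nonneg_left ?_ (by positivity)
  refine (inv_anti₀ h0 h1).trans (le_of_eq ?_)
  rw [← Finset.prod_inv_distrib]
  refine Finset.prod_congr rfl fun k _ => ?_
  rw [one_div, inv_pow]

theorem norm_ww_le_half (hβ : ∀ k i j, i ≠ j → 3 ≤ ‖β k i - β k j‖) (hμ : 2 ≤ ‖μ‖)
    (q : ∀ k, Fin (s k + 1)) (θ : Fin d → ℝ) : ‖ww μ β q θ‖ ≤ 1 / 2 := by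
  refine (norm_ww_le hβ hμ q θ).trans ?_
  have h1 : ‖μ‖⁻¹ ≤ 1 / 2 := by
    rw [one_div]
    exact inv_anti₀ (by norm_num) hμ
  have h2 : ∏ k, (1 / 2 : ℝ) ^ s k ≤ 1 :=
    Finset.prod_le_one (fun k _ => by positivity) fun k _ =>
      pow_le_one₀ (by norm_num) (by norm_num)
  calc ‖μ‖⁻¹ * ∏ k, (1 / 2 : ℝ) ^ s k ≤ 1 / 2 * 1 :=
        mul_le_mul h1 h2 (Finset.prod_nonneg fun k _ => by positivity) (by norm_num)
    _ = 1 / 2 := mul_one _

theorem per_ww (hβ : ∀ k i j, i ≠ j → 3 ≤ ‖β k i - β k j‖) (q : ∀ k, Fin (s k + 1)) :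
    Per (ww μ β q) := by
  intro θ j
  unfold ww FF
  congr 2
  refine Finset.prod_congr rfl fun k _ => Finset.prod_congr rfl fun i _ => ?_
  exact (one_ff hβ q k i).periodic k θ j

theorem pairing_ff (hβ : ∀ k i j, i ≠ j → 3 ≤ ‖β k i - β k j‖) (q p : ∀ k, Fin (s k + 1))
    (k : Fin d) (i : Fin (s k + 1)) :
    pairing (Fin.cons (fun θ => ff β q k i (θ k)) (vf fun k => ff β q k (p k))) =
      (2 * Real.pi) ^ d * (∏ l ∈ Finset.univ.erase k, if p l = q l then (1 : ℝ) else 0) *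
        (Real.log ‖β k i - β k (p k)‖ *
          ((if p k = q k then 1 else 0) - if i = q k then 1 else 0)) := by
  have h := pairing_lin (G := fun k => ff β q k (p k)) (R := 1) one_pos
    (β := β k i - β k (q k)) (b := β k (p k) - β k (q k)) (norm_ne_one hβ q k i)
    (norm_ne_one hβ q k (p k)) (fun k => one_ff hβ q k (p k)) k
  have e : Function.update (fun k => ff β q k (p k)) k
      (fun s => circ 1 s - (β k (p k) - β k (q k))) = fun k => ff β q k (p k) :=
    Function.update_eq_self k (fun k => ff β q k (p k))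
  rw [e, wd_ff hβ, wd_ff hβ] at h
  have e2 : β k i - β k (q k) - (β k (p k) - β k (q k)) = β k i - β k (p k) := by ring
  rw [e2] at h
  exact h

/-- the regulator of `{w, x_1 - β_{1,p_1}, ..., x_d - β_{d,p_d}}` -/
theorem pairing_ww (hβ : ∀ k i j, i ≠ j → 3 ≤ ‖β k i - β k j‖) (hμ : μ ≠ 0)
    (q p : ∀ k, Fin (s k + 1)) :
    -pairing (Fin.cons (ww μ β q) (vf fun k => ff β q k (p k))) =
      (2 * Real.pi) ^ d * (Real.log ‖μ‖ * (∏ k, if p k = q k then (1 : ℝ) else 0) +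
        ∑ k, (∏ l ∈ Finset.univ.erase k, if p l = q l then (1 : ℝ) else 0) *
          ((if p k = q k then ∑ i, Real.log ‖β k i - β k (p k)‖ else 0) -
            Real.log ‖β k (q k) - β k (p k)‖)) := by
  classical
  have hV : ∀ k, One (ff β q k (p k)) (if p k = q k then 1 else 0) :=
    fun k => one_ff hβ q k (p k)
  have h1 := pairing_w (good_FF hβ q) hμ hV
  have h2 : pairing (Fin.cons (FF β q) (vf fun k => ff β q k (p k))) =
      ∑ k, ∑ i, pairing (Fin.cons (fun θ => ff β q k i (θ k)) (vf fun k => ff β q k (p k))) := by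
    have h3 := pairing_prod (F := fun k (θ : Fin d → ℝ) => ∏ i, ff β q k i (θ k)) Finset.univ
      (fun k => good_prod Finset.univ fun i => (one_ff hβ q k i).good k) hV
    refine Eq.trans h3 (Finset.sum_congr rfl fun k _ => ?_)
    exact pairing_prod (F := fun i (θ : Fin d → ℝ) => ff β q k i (θ k)) Finset.univ
      (fun i => (one_ff hβ q k i).good k) hV
  have h3 : ∀ k, ∑ i, pairing (Fin.cons (fun θ => ff β q k i (θ k))
      (vf fun k => ff β q k (p k))) = (2 * Real.pi) ^ d *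
        ((∏ l ∈ Finset.univ.erase k, if p l = q l then (1 : ℝ) else 0) *
          ((if p k = q k then ∑ i, Real.log ‖β k i - β k (p k)‖ else 0) -
            Real.log ‖β k (q k) - β k (p k)‖)) := by
    intro k
    simp only [pairing_ff hβ]
    rw [← Finset.mul_sum, mul_assoc]
    congr 2
    simp only [mul_sub, Finset.sum_sub_distrib]
    congr 1
    · by_cases h : p k = q k
      · simp [h]
      · simp [h]
    · simp
  have h4 : pairing (Fin.cons (ww μ β q) (vf fun k => ff β q k (p k))) =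
      - ((2 * Real.pi) ^ d * Real.log ‖μ‖ * ∏ k, (if p k = q k then (1 : ℝ) else 0)) -
        pairing (Fin.cons (FF β q) (vf fun k => ff β q k (p k))) := h1
  rw [h4, h2]
  simp only [h3]
  rw [← Finset.mul_sum]
  ring

/-- the sum over all tori -/
theorem sum_pairing_ww (hβ : ∀ k i j, i ≠ j → 3 ≤ ‖β k i - β k j‖) (hμ : μ ≠ 0)
    (p : ∀ k, Fin (s k + 1)) :
    ∑ q : (∀ k, Fin (s k + 1)), -pairing (Fin.cons (ww μ β q) (vf fun k => ff β q k (p k))) =
      (2 * Real.pi) ^ d * Real.log ‖μ‖ := by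
  classical
  simp only [pairing_ww hβ hμ]
  rw [← Finset.mul_sum, Finset.sum_add_distrib, ← Finset.mul_sum, Finset.sum_comm]
  have h1 : ∑ q : (∀ k, Fin (s k + 1)), ∏ k, (if p k = q k then (1 : ℝ) else 0) = 1 := by
    rw [sum_prod_pi (fun k x => if p k = x then (1 : ℝ) else 0)]
    simp
  have h2 : ∀ k, ∑ q : (∀ k, Fin (s k + 1)),
      (∏ l ∈ Finset.univ.erase k, if p l = q l then (1 : ℝ) else 0) *
          ((if p k = q k then ∑ i, Real.log ‖β k i - β k (p k)‖ else 0) -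
            Real.log ‖β k (q k) - β k (p k)‖) = 0 := by
    intro k
    set f : ∀ l, Fin (s l + 1) → ℝ := fun l x => if l = k then
      ((if p l = x then ∑ i, Real.log ‖β l i - β l (p l)‖ else 0) -
            Real.log ‖β l x - β l (p l)‖) else (if p l = x then (1 : ℝ) else 0) with hf
    have h3 : ∀ q : (∀ k, Fin (s k + 1)),
        (∏ l ∈ Finset.univ.erase k, if p l = q l then (1 : ℝ) else 0) *
          ((if p k = q k then ∑ i, Real.log ‖β k i - β k (p k)‖ else 0) -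
            Real.log ‖β k (q k) - β k (p k)‖) = ∏ l, f l (q l) := by
      intro q
      rw [← Finset.mul_prod_erase _ _ (Finset.mem_univ k), mul_comm]
      congr 1
      · simp only [hf, if_true]
      · refine Finset.prod_congr rfl fun l hl => ?_
        simp only [hf]
        rw [if_neg (Finset.ne_of_mem_erase hl)]
    simp only [h3]
    rw [sum_prod_pi]
    refine Finset.prod_eq_zero (Finset.mem_univ k) ?_
    simp only [hf, if_true]
    rw [Finset.sum_sub_distrib]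
    simp
  rw [h1, Finset.sum_eq_zero fun k _ => h2 k, mul_one, add_zero]

/-- the sign for two different tori -/
theorem pairing_ww_nonpos (hβ : ∀ k i j, i ≠ j → 3 ≤ ‖β k i - β k j‖) (hμ : μ ≠ 0)
    {q p : ∀ k, Fin (s k + 1)} (hpq : p ≠ q) :
    -pairing (Fin.cons (ww μ β q) (vf fun k => ff β q k (p k))) ≤ 0 := by
  classical
  obtain ⟨k0, hk0⟩ : ∃ k, p k ≠ q k := by
    by_contra h
    push Not at h
    exact hpq (funext h)
  rw [pairing_ww hβ hμ, Finset.prod_eq_zero (Finset.mem_univ k0) (if_neg hk0), mul_zero, zero_add]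
  refine mul_nonpos_of_nonneg_of_nonpos (by positivity) (Finset.sum_nonpos fun k _ => ?_)
  have hpos : 0 ≤ ∏ l ∈ Finset.univ.erase k, if p l = q l then (1 : ℝ) else 0 :=
    Finset.prod_nonneg fun l _ => by split_ifs <;> norm_num
  by_cases h : p k = q k
  · have hk : k0 ≠ k := fun e => hk0 (by rw [e, h])
    rw [Finset.prod_eq_zero (Finset.mem_erase.2 ⟨hk, Finset.mem_univ k0⟩) (if_neg hk0), zero_mul]
  · rw [if_neg h, zero_sub]
    refine mul_nonpos_of_nonneg_of_nonpos hpos ?_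
    rw [neg_nonpos]
    refine Real.log_nonneg ?_
    linarith [hβ k (q k) (p k) (Ne.symm h)]

end Pool.Agent.TH826.UM
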